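import Mathlib
set_option autoImplicit false
set_option linter.unusedSectionVars false

/-! # Vanishing to high order along a line -/

namespace Pool.Agent.X331.KM

open Polynomial

variable {F : Type} [Field F] {σ : Type} [Fintype σ] [DecidableEq σ]

/-- the ring `F[T][y_l : l ∈ σ]` -/
abbrev Ay (F σ : Type) [Field F] := MvPolynomial σ F[X]

/-- vanishing to order `μ` at `T = s`, `y = 0` -/
def JP (s : F) (μ : ℕ) (H : Ay F σ) : Prop :=
  ∀ j : σ →₀ ℕ, (X - C s) ^ (μ - j.degree) ∣ MvPolynomial.coeff j H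

lemma JP_zero (s : F) (μ : ℕ) : JP s μ (0 : Ay F σ) := by
  intro j
  simp

lemma JP_add {s : F} {μ : ℕ} {H K : Ay F σ} (h : JP s μ H) (k : JP s μ K) : JP s μ (H + K) := by
  intro j
  rw [MvPolynomial.coeff_add]
  exact dvd_add (h j) (k j)

lemma JP_mono {s : F} {μ ν : ℕ} {H : Ay F σ} (hμ : ν ≤ μ) (h : JP s μ H) : JP s ν H := by
  intro j
  exact (pow_dvd_pow _ (by omega)).trans (h j)

lemma JP_C_mul {s : F} {μ : ℕ} {H : Ay F σ} (r : F[X]) (h : JP s μ H) :
    JP s μ (MvPolynomial.C r * H) := by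
  intro j
  rw [MvPolynomial.coeff_C_mul]
  exact (h j).mul_left r

lemma JP_T_mul {s : F} {μ : ℕ} {H : Ay F σ} (h : JP s μ H) :
    JP s (μ + 1) (MvPolynomial.C (X - C s) * H) := by
  intro j
  rw [MvPolynomial.coeff_C_mul]
  refine (pow_dvd_pow _ (by omega : μ + 1 - j.degree ≤ (μ - j.degree) + 1)).trans ?_
  rw [pow_succ']
  exact mul_dvd_mul_left _ (h j)

lemma JP_X_mul {s : F} {μ : ℕ} {H : Ay F σ} (l : σ) (h : JP s μ H) :
    JP s (μ + 1) (MvPolynomial.X l * H) := by
  intro j
  rw [MvPolynomial.coeff_X_mul']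
  split_ifs with hl
  · refine (pow_dvd_pow _ ?_).trans (h _)
    have hle : Finsupp.single l 1 ≤ j := by
      rw [Finsupp.single_le_iff]
      exact Nat.one_le_iff_ne_zero.mpr (Finsupp.mem_support_iff.mp hl)
    have : (j - Finsupp.single l 1).degree + 1 = j.degree := by
      have e : j = (j - Finsupp.single l 1) + Finsupp.single l 1 := (tsub_add_cancel_of_le hle).symm
      conv_rhs => rw [e]
      rw [map_add, Finsupp.degree_single]
    omega
  · exact dvd_zero _

lemma JP_mul {s : F} {μ : ℕ} {H : Ay F σ} (K : Ay F σ) (h : JP s μ H) : JP s μ (K * H) := by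
  induction K using MvPolynomial.induction_on with
  | C r => exact JP_C_mul r h
  | add p q hp hq => rw [add_mul]; exact JP_add hp hq
  | mul_X p l hp =>
    have e : p * MvPolynomial.X l * H = MvPolynomial.X l * (p * H) := by ring
    rw [e]
    exact JP_mono (by omega) (JP_X_mul l hp)

/-- the ideal of the point -/
noncomputable def Ip (σ : Type) (s : F) : Ideal (Ay F σ) :=
  Ideal.span (insert (MvPolynomial.C (X - C s)) (Set.range MvPolynomial.X))

lemma T_mem (s : F) : (MvPolynomial.C (X - C s) : Ay F σ) ∈ Ip σ s :=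
  Ideal.subset_span (Set.mem_insert _ _)

lemma X_mem (s : F) (l : σ) : (MvPolynomial.X l : Ay F σ) ∈ Ip σ s :=
  Ideal.subset_span (Set.mem_insert_of_mem _ ⟨l, rfl⟩)

lemma JP_of_mem {s : F} {μ : ℕ} {H : Ay F σ} (h : H ∈ Ip σ s ^ μ) : JP s μ H := by
  induction μ generalizing H with
  | zero =>
    intro j
    simp
  | succ μ ih =>
    rw [pow_succ'] at h
    refine Submodule.mul_induction_on h ?_ ?_
    · intro a ha b hb
      have hb' := ih hb
      refine Submodule.span_induction (p := fun a _ => JP s (μ + 1) (a * b)) ?_ ?_ ?_ ?_ ha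
      · intro x hx
        rcases hx with rfl | ⟨l, rfl⟩
        · exact JP_T_mul hb'
        · exact JP_X_mul l hb'
      · rw [zero_mul]
        exact JP_zero _ _
      · intro x y _ _ hx hy
        rw [add_mul]
        exact JP_add hx hy
      · intro c x _ hx
        rw [smul_eq_mul, mul_assoc]
        exact JP_mul c hx
    · intro x y hx hy
      exact JP_add hx hy

lemma monomial_mem (s : F) (j : σ →₀ ℕ) :
    (MvPolynomial.monomial j 1 : Ay F σ) ∈ Ip σ s ^ j.degree := by
  rw [MvPolynomial.monomial_eq, MvPolynomial.C_1, one_mul, Finsupp.prod, Finsupp.degree_apply,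
    ← Finset.prod_pow_eq_pow_sum]
  exact Ideal.prod_mem_prod fun l _ => Ideal.pow_mem_pow (X_mem s l) _

lemma mem_of_JP {s : F} {μ : ℕ} {H : Ay F σ} (h : JP s μ H) : H ∈ Ip σ s ^ μ := by
  rw [← MvPolynomial.support_sum_monomial_coeff H]
  refine Ideal.sum_mem _ fun j _ => ?_
  obtain ⟨r, hr⟩ := h j
  have e : (MvPolynomial.monomial j (MvPolynomial.coeff j H) : Ay F σ) =
      MvPolynomial.C r * (MvPolynomial.C (X - C s) ^ (μ - j.degree) *
        MvPolynomial.monomial j 1) := by
    rw [hr, ← map_pow, ← mul_assoc, ← map_mul, MvPolynomial.C_mul_monomial, mul_one,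
      mul_comm]
  rw [e]
  refine Ideal.mul_mem_left _ _ ?_
  have h1 : MvPolynomial.C (X - C s) ^ (μ - j.degree) * MvPolynomial.monomial j 1 ∈
      Ip σ s ^ (μ - j.degree) * Ip σ s ^ j.degree :=
    Ideal.mul_mem_mul (Ideal.pow_mem_pow (T_mem s) _) (monomial_mem s j)
  rw [← pow_add] at h1
  exact Ideal.pow_le_pow_right (by omega) h1

/-- the substitution `y ↦ y + b` -/
noncomputable def shift (b : σ → F) : Ay F σ →ₐ[F[X]] Ay F σ :=
  MvPolynomial.aeval fun l => MvPolynomial.X l + MvPolynomial.C (C (b l))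

/-- the substitution `y ↦ y + a + ω T` -/
noncomputable def lineSub (a ω : σ → F) : Ay F σ →ₐ[F[X]] Ay F σ :=
  MvPolynomial.aeval fun l => MvPolynomial.X l + MvPolynomial.C (C (a l) + C (ω l) * X)

/-- the substitution `y ↦ y + ω (T - s)` -/
noncomputable def slide (s : F) (ω : σ → F) : Ay F σ →ₐ[F[X]] Ay F σ :=
  MvPolynomial.aeval fun l => MvPolynomial.X l + MvPolynomial.C (C (ω l) * (X - C s))

lemma lineSub_eq (s : F) (a ω : σ → F) (P : Ay F σ) :
    lineSub a ω P = slide s ω (shift (fun l => a l + s * ω l) P) := by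
  have : lineSub a ω = (slide s ω).comp (shift (fun l => a l + s * ω l)) := by
    apply MvPolynomial.algHom_ext
    intro l
    simp only [lineSub, slide, shift, AlgHom.comp_apply, MvPolynomial.aeval_X, map_add]
    have h1 : (MvPolynomial.aeval fun l => MvPolynomial.X l +
        MvPolynomial.C (C (ω l) * (X - C s))) (MvPolynomial.C (C (a l)) : Ay F σ) =
        MvPolynomial.C (C (a l)) := by
      rw [MvPolynomial.aeval_C]; rfl
    have h2 : (MvPolynomial.aeval fun l => MvPolynomial.X l +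
        MvPolynomial.C (C (ω l) * (X - C s))) (MvPolynomial.C (C (s * ω l)) : Ay F σ) =
        MvPolynomial.C (C (s * ω l)) := by
      rw [MvPolynomial.aeval_C]; rfl
    rw [h1, h2]
    simp only [map_mul, map_sub, map_add]
    ring
  rw [this]
  rfl

lemma slide_mem {s : F} (ω : σ → F) {μ : ℕ} {H : Ay F σ} (h : H ∈ Ip σ s ^ μ) :
    slide s ω H ∈ Ip σ s ^ μ := by
  have h1 : (Ip σ s).map (slide s ω) ≤ Ip σ s := by
    rw [Ip, Ideal.map_span, Ideal.span_le]
    rintro x ⟨y, hy, rfl⟩
    rcases hy with rfl | ⟨l, rfl⟩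
    · have : slide s ω (MvPolynomial.C (X - C s) : Ay F σ) = MvPolynomial.C (X - C s) := by
        rw [slide, MvPolynomial.aeval_C]; rfl
      rw [this]
      exact T_mem s
    · have : slide s ω (MvPolynomial.X l : Ay F σ) = MvPolynomial.X l +
          MvPolynomial.C (C (ω l)) * MvPolynomial.C (X - C s) := by
        rw [slide, MvPolynomial.aeval_X, map_mul]
      rw [this]
      exact Ideal.add_mem _ (X_mem s l) (Ideal.mul_mem_left _ _ (T_mem s))
  have h2 : slide s ω H ∈ (Ip σ s ^ μ).map (slide s ω) := Ideal.mem_map_of_mem _ h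
  rw [Ideal.map_pow] at h2
  exact Ideal.pow_right_mono h1 μ h2

lemma JP_line {s : F} {μ : ℕ} (a ω : σ → F) {P : Ay F σ}
    (h : JP s μ (shift (fun l => a l + s * ω l) P)) : JP s μ (lineSub a ω P) := by
  rw [lineSub_eq s]
  exact JP_of_mem (slide_mem ω (mem_of_JP h))

/-- A polynomial of small degree vanishing to high order along a line. -/
lemma coeff_eq_zero_of_JP [Fintype F] [DecidableEq F] (g : F → ℕ) (a ω : σ → F) (P : Ay F σ)
    (h : ∀ s : F, JP s (g s) (shift (fun l => a l + s * ω l) P)) (j : σ →₀ ℕ) (d : ℕ)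
    (hd : (MvPolynomial.coeff j (lineSub a ω P)).natDegree ≤ d)
    (hg : d + Fintype.card F * j.degree < ∑ s, g s) :
    MvPolynomial.coeff j (lineSub a ω P) = 0 := by
  by_contra hne
  have h1 : ∏ s : F, (X - C s) ^ (g s - j.degree) ∣ MvPolynomial.coeff j (lineSub a ω P) := by
    refine Finset.prod_dvd_of_coprime ?_ fun s _ => JP_line a ω (h s) j
    intro s _ t _ hst
    exact (Polynomial.isCoprime_X_sub_C_of_isUnit_sub (sub_ne_zero.mpr hst).isUnit).pow
  have h2 := Polynomial.natDegree_le_of_dvd h1 hne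
  rw [Polynomial.natDegree_prod_of_monic _ _ (fun s _ => (monic_X_sub_C s).pow _)] at h2
  simp only [natDegree_pow, natDegree_X_sub_C, mul_one] at h2
  have h3 : ∑ s, g s ≤ ∑ s : F, ((g s - j.degree) + j.degree) :=
    Finset.sum_le_sum fun s _ => by omega
  rw [Finset.sum_add_distrib, Finset.sum_const, Finset.card_univ, smul_eq_mul] at h3
  omega

end Pool.Agent.X331.KM
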