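import Mathlib
import Pool.Agent.X331.KM.Van
set_option autoImplicit false
set_option linter.unusedSectionVars false

/-! # Top degree parts -/

namespace Pool.Agent.X331.KM

open Polynomial

variable {F : Type} [Field F] {σ : Type} [Fintype σ] [DecidableEq σ]

/-- `H` has total degree at most `D`, and its part of degree `D` is the homogenization of `p` -/
structure Top (D : ℕ) (H : Ay F σ) (p : MvPolynomial σ F) : Prop where
  hi : ∀ (j : σ →₀ ℕ) (i : ℕ), D < i + j.degree → (MvPolynomial.coeff j H).coeff i = 0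
  eq : ∀ (j : σ →₀ ℕ) (i : ℕ), i + j.degree = D →
    (MvPolynomial.coeff j H).coeff i = MvPolynomial.coeff j p
  p0 : ∀ j : σ →₀ ℕ, D < j.degree → MvPolynomial.coeff j p = 0

lemma Top_zero (D : ℕ) : Top D (0 : Ay F σ) 0 := ⟨by simp, by simp, by simp⟩

lemma Top_add {D : ℕ} {H K : Ay F σ} {p r : MvPolynomial σ F} (h : Top D H p) (k : Top D K r) :
    Top D (H + K) (p + r) where
  hi j i hij := by
    rw [MvPolynomial.coeff_add, Polynomial.coeff_add, h.hi j i hij, k.hi j i hij, add_zero]
  eq j i hij := by
    rw [MvPolynomial.coeff_add, Polynomial.coeff_add, h.eq j i hij, k.eq j i hij,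
      MvPolynomial.coeff_add]
  p0 j hj := by
    rw [MvPolynomial.coeff_add, h.p0 j hj, k.p0 j hj, add_zero]

lemma Top_smul {D : ℕ} {H : Ay F σ} {p : MvPolynomial σ F} (c : F) (h : Top D H p) :
    Top D (c • H) (c • p) where
  hi j i hij := by
    rw [MvPolynomial.coeff_smul, Polynomial.coeff_smul, h.hi j i hij, smul_zero]
  eq j i hij := by
    rw [MvPolynomial.coeff_smul, Polynomial.coeff_smul, h.eq j i hij, MvPolynomial.coeff_smul]
  p0 j hj := by
    rw [MvPolynomial.coeff_smul, h.p0 j hj, smul_zero]

lemma Top_sum {D : ℕ} {ι : Type} (s : Finset ι) {H : ι → Ay F σ} {p : ι → MvPolynomial σ F}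
    (h : ∀ i ∈ s, Top D (H i) (p i)) : Top D (∑ i ∈ s, H i) (∑ i ∈ s, p i) := by
  classical
  induction s using Finset.induction_on with
  | empty => simpa using Top_zero D
  | insert a s ha ih =>
    rw [Finset.sum_insert ha, Finset.sum_insert ha]
    exact Top_add (h a (Finset.mem_insert_self _ _))
      (ih fun i hi => h i (Finset.mem_insert_of_mem hi))

lemma Top_lower {D D' : ℕ} {H : Ay F σ} {p : MvPolynomial σ F} (h : Top D' H p) (hD : D' < D) :
    Top D H 0 where
  hi j i hij := h.hi j i (by omega)
  eq j i hij := by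
    rw [h.hi j i (by omega)]
    simp
  p0 j hj := by simp

lemma Top_mul {D₁ D₂ : ℕ} {H₁ H₂ : Ay F σ} {p₁ p₂ : MvPolynomial σ F} (h₁ : Top D₁ H₁ p₁)
    (h₂ : Top D₂ H₂ p₂) : Top (D₁ + D₂) (H₁ * H₂) (p₁ * p₂) where
  hi j i hij := by
    rw [MvPolynomial.coeff_mul, Polynomial.finsetSum_coeff]
    refine Finset.sum_eq_zero fun x hx => ?_
    have hx' : x.1.degree + x.2.degree = j.degree := by
      rw [← map_add, Finset.HasAntidiagonal.mem_antidiagonal.mp hx]
    rw [Polynomial.coeff_mul]
    refine Finset.sum_eq_zero fun y hy => ?_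
    have hy' := Finset.HasAntidiagonal.mem_antidiagonal.mp hy
    by_cases h : D₁ < y.1 + x.1.degree
    · rw [h₁.hi _ _ h, zero_mul]
    · rw [h₂.hi x.2 y.2 (by omega), mul_zero]
  eq j i hij := by
    rw [MvPolynomial.coeff_mul, Polynomial.finsetSum_coeff, MvPolynomial.coeff_mul]
    refine Finset.sum_congr rfl fun x hx => ?_
    have hx' : x.1.degree + x.2.degree = j.degree := by
      rw [← map_add, Finset.HasAntidiagonal.mem_antidiagonal.mp hx]
    rw [Polynomial.coeff_mul]
    by_cases c1 : D₁ < x.1.degree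
    · rw [h₁.p0 _ c1, zero_mul]
      refine Finset.sum_eq_zero fun y hy => ?_
      rw [h₁.hi _ _ (by omega), zero_mul]
    by_cases c2 : D₂ < x.2.degree
    · rw [h₂.p0 _ c2, mul_zero]
      refine Finset.sum_eq_zero fun y hy => ?_
      rw [h₂.hi _ _ (by omega), mul_zero]
    rw [Finset.sum_eq_single (D₁ - x.1.degree, D₂ - x.2.degree)]
    · rw [h₁.eq _ _ (by omega), h₂.eq _ _ (by omega)]
    · intro y hy hne
      have hy' := Finset.HasAntidiagonal.mem_antidiagonal.mp hy
      by_cases h : D₁ < y.1 + x.1.degree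
      · rw [h₁.hi _ _ h, zero_mul]
      · by_cases h' : D₂ < y.2 + x.2.degree
        · rw [h₂.hi _ _ h', mul_zero]
        · exfalso
          apply hne
          ext <;> simp <;> omega
    · intro hn
      exfalso
      apply hn
      rw [Finset.HasAntidiagonal.mem_antidiagonal]
      simp only
      omega
  p0 j hj := by
    rw [MvPolynomial.coeff_mul]
    refine Finset.sum_eq_zero fun x hx => ?_
    have hx' : x.1.degree + x.2.degree = j.degree := by
      rw [← map_add, Finset.HasAntidiagonal.mem_antidiagonal.mp hx]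
    by_cases h : D₁ < x.1.degree
    · rw [h₁.p0 _ h, zero_mul]
    · rw [h₂.p0 _ (by omega), mul_zero]

lemma Top_one : Top 0 (1 : Ay F σ) 1 where
  hi j i hij := by
    rw [MvPolynomial.coeff_one]
    split_ifs with h
    · subst h
      rw [Polynomial.coeff_one]
      simp at hij
      simp [hij.ne']
    · simp
  eq j i hij := by
    have hi : i = 0 := by omega
    have hj : j.degree = 0 := by omega
    have hj' : j = 0 := (Finsupp.degree_eq_zero_iff j).mp hj
    subst hi hj'
    simp
  p0 j hj := by
    rw [MvPolynomial.coeff_one, if_neg]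
    rintro rfl
    simp at hj

lemma Top_pow {D : ℕ} {H : Ay F σ} {p : MvPolynomial σ F} (h : Top D H p) (n : ℕ) :
    Top (n * D) (H ^ n) (p ^ n) := by
  induction n with
  | zero => simpa using Top_one
  | succ n ih =>
    rw [pow_succ, pow_succ, Nat.succ_mul]
    exact Top_mul ih h

lemma Top_prod {ι : Type} (s : Finset ι) {D : ι → ℕ} {H : ι → Ay F σ}
    {p : ι → MvPolynomial σ F} (h : ∀ i ∈ s, Top (D i) (H i) (p i)) :
    Top (∑ i ∈ s, D i) (∏ i ∈ s, H i) (∏ i ∈ s, p i) := by
  classical
  induction s using Finset.induction_on with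
  | empty => simpa using Top_one
  | insert a s ha ih =>
    rw [Finset.sum_insert ha, Finset.prod_insert ha, Finset.prod_insert ha]
    exact Top_mul (h a (Finset.mem_insert_self _ _))
      (ih fun i hi => h i (Finset.mem_insert_of_mem hi))

lemma Top_C_X_pow (i : ℕ) : Top i (MvPolynomial.C (X ^ i) : Ay F σ) 1 where
  hi j k hij := by
    rw [MvPolynomial.coeff_C]
    split_ifs with h
    · subst h
      simp at hij
      rw [Polynomial.coeff_X_pow, if_neg hij.ne']
    · simp
  eq j k hij := by
    rw [MvPolynomial.coeff_C, MvPolynomial.coeff_one]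
    split_ifs with h
    · subst h
      simp at hij
      rw [Polynomial.coeff_X_pow, if_pos hij]
    · simp
  p0 j hj := by
    rw [MvPolynomial.coeff_one, if_neg]
    rintro rfl
    simp at hj

lemma Top_C_lin (a w : F) : Top 1 (MvPolynomial.C (C a + C w * X) : Ay F σ) (MvPolynomial.C w) where
  hi j k hij := by
    rw [MvPolynomial.coeff_C]
    split_ifs with h
    · subst h
      simp at hij
      rw [Polynomial.coeff_add, Polynomial.coeff_C, if_neg (by omega), Polynomial.coeff_C_mul,
        Polynomial.coeff_X, if_neg (by omega)]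
      simp
    · simp
  eq j k hij := by
    rw [MvPolynomial.coeff_C, MvPolynomial.coeff_C]
    split_ifs with h
    · subst h
      simp at hij
      subst hij
      simp [Polynomial.coeff_C]
    · simp
  p0 j hj := by
    rw [MvPolynomial.coeff_C, if_neg]
    rintro rfl
    simp at hj

lemma Top_X (l : σ) : Top 1 (MvPolynomial.X l : Ay F σ) (MvPolynomial.X l) where
  hi j k hij := by
    rw [MvPolynomial.coeff_X]
    split_ifs with h
    · subst h
      rw [Finsupp.degree_single] at hij
      rw [Polynomial.coeff_one, if_neg (by omega)]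
    · simp
  eq j k hij := by
    rw [MvPolynomial.coeff_X, MvPolynomial.coeff_X]
    split_ifs with h
    · subst h
      rw [Finsupp.degree_single] at hij
      rw [Polynomial.coeff_one, if_pos (by omega)]
    · simp
  p0 j hj := by
    rw [MvPolynomial.coeff_X, if_neg]
    rintro rfl
    rw [Finsupp.degree_single] at hj
    omega

/-- the substitution `y ↦ y + b` over `F` -/
noncomputable def shiftF (b : σ → F) : MvPolynomial σ F →ₐ[F] MvPolynomial σ F :=
  MvPolynomial.aeval fun l => MvPolynomial.X l + MvPolynomial.C (b l)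

/-- homogenization: `y^e ↦ T^{D-|e|} y^e` -/
noncomputable def hom (σ : Type) (F : Type) [Field F] (D : ℕ) :
    MvPolynomial σ F →ₗ[F] Ay F σ :=
  (MvPolynomial.basisMonomials σ F).constr F
    fun e => MvPolynomial.C (X ^ (D - e.degree)) * MvPolynomial.monomial e 1

lemma hom_monomial (D : ℕ) (e : σ →₀ ℕ) : hom σ F D (MvPolynomial.monomial e 1) =
    MvPolynomial.C (X ^ (D - e.degree)) * MvPolynomial.monomial e 1 := by
  have h := (MvPolynomial.basisMonomials σ F).constr_basis F
    (fun e => (MvPolynomial.C (X ^ (D - e.degree)) * MvPolynomial.monomial e 1 : Ay F σ)) e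
  rw [MvPolynomial.coe_basisMonomials] at h
  exact h

lemma Top_line_monomial (a ω : σ → F) {D : ℕ} {e : σ →₀ ℕ} (he : e.degree ≤ D) :
    Top D (lineSub a ω (hom σ F D (MvPolynomial.monomial e 1)))
      (shiftF ω (MvPolynomial.monomial e 1)) := by
  rw [hom_monomial, map_mul]
  have e1 : lineSub a ω (MvPolynomial.C (X ^ (D - e.degree)) : Ay F σ) =
      MvPolynomial.C (X ^ (D - e.degree)) := by
    rw [lineSub, MvPolynomial.aeval_C]; rfl
  have e2 : lineSub a ω (MvPolynomial.monomial e 1 : Ay F σ) =
      ∏ l, (MvPolynomial.X l + MvPolynomial.C (C (a l) + C (ω l) * X)) ^ e l := by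
    rw [lineSub, MvPolynomial.aeval_monomial, map_one, one_mul, Finsupp.prod_fintype]
    intro i
    rw [pow_zero]
  have e3 : shiftF ω (MvPolynomial.monomial e 1 : MvPolynomial σ F) =
      1 * ∏ l, (MvPolynomial.X l + MvPolynomial.C (ω l)) ^ e l := by
    rw [shiftF, MvPolynomial.aeval_monomial, map_one, Finsupp.prod_fintype]
    intro i
    rw [pow_zero]
  rw [e1, e2, e3]
  have h2 : Top (∑ l, e l * 1)
      (∏ l, (MvPolynomial.X l + MvPolynomial.C (C (a l) + C (ω l) * X)) ^ e l : Ay F σ)
      (∏ l, (MvPolynomial.X l + MvPolynomial.C (ω l)) ^ e l) :=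
    Top_prod Finset.univ fun l _ => Top_pow (Top_add (Top_X l) (Top_C_lin (a l) (ω l))) _
  have h3 := Top_mul (Top_C_X_pow (F := F) (σ := σ) (D - e.degree)) h2
  have h4 : D - e.degree + ∑ l, e l * 1 = D := by
    have : ∑ l, e l * 1 = e.degree := by
      rw [Finsupp.degree_eq_sum]
      simp
    omega
  rw [h4] at h3
  exact h3

lemma Top_line (a ω : σ → F) {D : ℕ} {p : MvPolynomial σ F} (hp : p.totalDegree ≤ D) :
    Top D (lineSub a ω (hom σ F D p)) (shiftF ω p) := by
  have e1 : p = ∑ e ∈ p.support, MvPolynomial.coeff e p • MvPolynomial.monomial e (1 : F) := by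
    conv_lhs => rw [← MvPolynomial.support_sum_monomial_coeff p]
    refine Finset.sum_congr rfl fun e _ => ?_
    rw [MvPolynomial.smul_monomial, smul_eq_mul, mul_one]
  have h : Top D (∑ e ∈ p.support, MvPolynomial.coeff e p •
      lineSub a ω (hom σ F D (MvPolynomial.monomial e 1)))
      (∑ e ∈ p.support, MvPolynomial.coeff e p • shiftF ω (MvPolynomial.monomial e 1)) := by
    refine Top_sum _ fun e he => Top_smul _ (Top_line_monomial a ω ?_)
    have := MvPolynomial.le_totalDegree he
    rw [Finsupp.degree_apply]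
    exact this.trans hp
  have e2 : lineSub a ω (hom σ F D p) = ∑ e ∈ p.support, MvPolynomial.coeff e p •
      lineSub a ω (hom σ F D (MvPolynomial.monomial e 1)) := by
    conv_lhs => rw [e1, map_sum, map_sum]
    refine Finset.sum_congr rfl fun e _ => ?_
    rw [map_smul]
    have : ∀ (c : F) (H : Ay F σ), lineSub a ω (c • H) = c • lineSub a ω H := by
      intro c H
      have h5 : c • H = (C c : F[X]) • H := by
        rw [← algebraMap_smul (R := F) F[X] c H]
        rfl
      rw [h5, map_smul]
      rw [← algebraMap_smul (R := F) F[X] c (lineSub a ω H)]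
      rfl
    exact this _ _
  have e3 : shiftF ω p = ∑ e ∈ p.support, MvPolynomial.coeff e p •
      shiftF ω (MvPolynomial.monomial e 1) := by
    conv_lhs => rw [e1, map_sum]
    refine Finset.sum_congr rfl fun e _ => ?_
    rw [map_smul]
  rw [e2, e3]
  exact h

end Pool.Agent.X331.KM
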