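import Mathlib
import Pool.Agent.X331.KM.Top
set_option autoImplicit false
set_option linter.unusedSectionVars false

/-! # A triangular family of polynomials on `F^σ` -/

namespace Pool.Agent.X331.KM

open Finset

variable {F : Type} [Field F] [Fintype F] [DecidableEq F] {σ : Type} [Fintype σ] [DecidableEq σ]

/-- Lagrange polynomial -/
noncomputable def lag (ω : σ → F) : MvPolynomial σ F :=
  ∏ l, (1 - (MvPolynomial.X l - MvPolynomial.C (ω l)) ^ (Fintype.card F - 1))

lemma eval_lag (ω ω' : σ → F) : MvPolynomial.eval ω' (lag ω) = if ω' = ω then 1 else 0 := by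
  unfold lag
  rw [map_prod]
  simp only [map_sub, map_one, map_pow, MvPolynomial.eval_X, MvPolynomial.eval_C]
  split_ifs with h
  · subst h
    have : Fintype.card F - 1 ≠ 0 := by
      have := Fintype.one_lt_card (α := F)
      omega
    simp [this]
  · obtain ⟨l, hl⟩ : ∃ l, ω' l ≠ ω l := by
      by_contra hcon
      push Not at hcon
      exact h (funext hcon)
    refine Finset.prod_eq_zero (Finset.mem_univ l) ?_
    rw [FiniteField.pow_card_sub_one_eq_one _ (sub_ne_zero.mpr hl), sub_self]

/-- the polynomials `c_ω ∏ (y_l^q - y_l)^{j_l}` -/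
noncomputable def Nf (ω : σ → F) (j : σ →₀ ℕ) : MvPolynomial σ F :=
  lag ω * ∏ l, (MvPolynomial.X l ^ Fintype.card F - MvPolynomial.X l) ^ j l

lemma shiftF_u (b : σ → F) (l : σ) :
    shiftF b (MvPolynomial.X l ^ Fintype.card F - MvPolynomial.X l : MvPolynomial σ F) =
      MvPolynomial.X l ^ Fintype.card F - MvPolynomial.X l := by
  obtain ⟨p, hp⟩ := CharP.exists F
  obtain ⟨n, hprime, hn⟩ := FiniteField.card F p
  have : Fact p.Prime := ⟨hprime⟩
  have : CharP (MvPolynomial σ F) p := inferInstance
  rw [map_sub, map_pow, shiftF, MvPolynomial.aeval_X]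
  have h1 : (MvPolynomial.X l + MvPolynomial.C (b l) : MvPolynomial σ F) ^ Fintype.card F =
      MvPolynomial.X l ^ Fintype.card F + MvPolynomial.C (b l) := by
    rw [hn, add_pow_char_pow, ← hn, ← map_pow, FiniteField.pow_card]
  rw [h1]
  ring

lemma shiftF_Nf (b ω : σ → F) (j : σ →₀ ℕ) : shiftF b (Nf ω j) =
    MvPolynomial.monomial j 1 * (shiftF b (lag ω) *
      ∏ l, (MvPolynomial.X l ^ (Fintype.card F - 1) - 1) ^ j l) := by
  unfold Nf
  rw [map_mul, map_prod]
  simp only [map_pow, shiftF_u]
  have h1 : ∀ l, (MvPolynomial.X l ^ Fintype.card F - MvPolynomial.X l : MvPolynomial σ F) =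
      MvPolynomial.X l * (MvPolynomial.X l ^ (Fintype.card F - 1) - 1) := by
    intro l
    have : Fintype.card F = Fintype.card F - 1 + 1 := by
      have := Fintype.one_lt_card (α := F)
      omega
    conv_lhs => rw [this]
    rw [pow_succ]
    ring
  simp_rw [h1, mul_pow]
  rw [Finset.prod_mul_distrib]
  have h2 : (MvPolynomial.monomial j 1 : MvPolynomial σ F) = ∏ l, MvPolynomial.X l ^ j l := by
    rw [MvPolynomial.monomial_eq, MvPolynomial.C_1, one_mul, Finsupp.prod_fintype]
    intro i
    rw [pow_zero]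
  rw [h2]
  ring

lemma coeff_zero_eq_eval (p : MvPolynomial σ F) (b : σ → F) :
    MvPolynomial.coeff 0 (shiftF b p) = MvPolynomial.eval b p := by
  rw [← MvPolynomial.constantCoeff_eq]
  have : (MvPolynomial.constantCoeff.comp (shiftF b : MvPolynomial σ F →+* MvPolynomial σ F)) =
      MvPolynomial.eval b := by
    apply MvPolynomial.ringHom_ext
    · intro r
      simp [shiftF]
    · intro l
      simp [shiftF]
  exact RingHom.congr_fun this p

lemma coeff_shiftF_Nf (b ω : σ → F) (j j' : σ →₀ ℕ) (hj : j'.degree ≤ j.degree) :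
    MvPolynomial.coeff j' (shiftF b (Nf ω j)) =
      if j' = j ∧ b = ω then (-1) ^ j.degree else 0 := by
  rw [shiftF_Nf, MvPolynomial.coeff_monomial_mul']
  have hq : Fintype.card F - 1 ≠ 0 := by
    have := Fintype.one_lt_card (α := F)
    omega
  by_cases hle : j ≤ j'
  · have hd : (j' - j).degree = 0 := by
      have : j' = (j' - j) + j := (tsub_add_cancel_of_le hle).symm
      have h2 : j'.degree = (j' - j).degree + j.degree := by
        conv_lhs => rw [this]
        rw [map_add]
      omega
    have h0 : j' - j = 0 := (Finsupp.degree_eq_zero_iff _).mp hd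
    have hjj : j' = j := by
      have : j' = (j' - j) + j := (tsub_add_cancel_of_le hle).symm
      rw [this, h0, zero_add]
    subst hjj
    rw [if_pos le_rfl, tsub_self, one_mul]
    have h3 : MvPolynomial.coeff 0 (shiftF b (lag ω) *
        ∏ l, (MvPolynomial.X l ^ (Fintype.card F - 1) - 1 : MvPolynomial σ F) ^ j' l) =
        MvPolynomial.eval b (lag ω) * (-1) ^ j'.degree := by
      rw [← coeff_zero_eq_eval, ← MvPolynomial.constantCoeff_eq, map_mul, map_prod]
      congr 1
      have h5 : ∀ l : σ, MvPolynomial.constantCoeff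
          ((MvPolynomial.X l ^ (Fintype.card F - 1) - 1 : MvPolynomial σ F) ^ j' l) =
          (-1) ^ j' l := by
        intro l
        rw [map_pow, map_sub, map_pow, MvPolynomial.constantCoeff_X, map_one, zero_pow hq,
          zero_sub]
      rw [Finset.prod_congr rfl (fun l _ => h5 l), Finset.prod_pow_eq_pow_sum,
        ← Finsupp.degree_eq_sum]
    rw [h3, eval_lag]
    by_cases h1 : b = ω
    · rw [if_pos h1, if_pos ⟨rfl, h1⟩, one_mul]
    · rw [if_neg h1, if_neg (fun h => h1 h.2), zero_mul]
  · rw [if_neg hle, if_neg]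
    rintro ⟨rfl, _⟩
    exact hle le_rfl

lemma totalDegree_Nf (ω : σ → F) (j : σ →₀ ℕ) :
    (Nf ω j).totalDegree ≤ Fintype.card σ * (Fintype.card F - 1) + Fintype.card F * j.degree := by
  unfold Nf
  refine (MvPolynomial.totalDegree_mul _ _).trans (add_le_add ?_ ?_)
  · unfold lag
    refine (MvPolynomial.totalDegree_finsetProd _ _).trans ?_
    have : ∀ l ∈ (Finset.univ : Finset σ), (1 - (MvPolynomial.X l - MvPolynomial.C (ω l)) ^
        (Fintype.card F - 1) : MvPolynomial σ F).totalDegree ≤ Fintype.card F - 1 := by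
      intro l _
      refine (MvPolynomial.totalDegree_sub _ _).trans (max_le (by simp) ?_)
      refine (MvPolynomial.totalDegree_pow _ _).trans ?_
      have : (MvPolynomial.X l - MvPolynomial.C (ω l) : MvPolynomial σ F).totalDegree ≤ 1 := by
        refine (MvPolynomial.totalDegree_sub _ _).trans (max_le ?_ (by simp))
        rw [MvPolynomial.totalDegree_X]
      calc _ ≤ (Fintype.card F - 1) * 1 := Nat.mul_le_mul_left _ this
        _ = _ := mul_one _
    refine (Finset.sum_le_sum this).trans ?_
    rw [Finset.sum_const, Finset.card_univ, smul_eq_mul]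
  · refine (MvPolynomial.totalDegree_finsetProd _ _).trans ?_
    have : ∀ l ∈ (Finset.univ : Finset σ), ((MvPolynomial.X l ^ Fintype.card F -
        MvPolynomial.X l : MvPolynomial σ F) ^ j l).totalDegree ≤ j l * Fintype.card F := by
      intro l _
      refine (MvPolynomial.totalDegree_pow _ _).trans (Nat.mul_le_mul_left _ ?_)
      refine (MvPolynomial.totalDegree_sub _ _).trans (max_le ?_ ?_)
      · rw [MvPolynomial.totalDegree_X_pow]
      · rw [MvPolynomial.totalDegree_X]
        exact Fintype.card_pos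
    refine (Finset.sum_le_sum this).trans ?_
    rw [← Finset.sum_mul, ← Finsupp.degree_eq_sum, mul_comm]

/-- A nontrivial combination does not vanish to high order. -/
lemma exists_coeff_ne (I : Finset ((σ → F) × (σ →₀ ℕ))) (α : (σ → F) × (σ →₀ ℕ) → F)
    (h : ∃ x ∈ I, α x ≠ 0) :
    ∃ x ∈ I, MvPolynomial.coeff x.2 (shiftF x.1 (∑ y ∈ I, α y • Nf y.1 y.2)) ≠ 0 := by
  classical
  obtain ⟨x, hx, hmin⟩ := Finset.exists_min_image (I.filter fun x => α x ≠ 0)
    (fun x => x.2.degree) (by
      obtain ⟨x, hx, hne⟩ := h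
      exact ⟨x, Finset.mem_filter.mpr ⟨hx, hne⟩⟩)
  rw [Finset.mem_filter] at hx
  refine ⟨x, hx.1, ?_⟩
  rw [map_sum, MvPolynomial.coeff_sum]
  rw [Finset.sum_eq_single x]
  · rw [map_smul, MvPolynomial.coeff_smul, coeff_shiftF_Nf _ _ _ _ le_rfl, if_pos ⟨rfl, rfl⟩,
      smul_eq_mul]
    exact mul_ne_zero hx.2 (pow_ne_zero _ (by simp))
  · intro y hy hne
    rw [map_smul, MvPolynomial.coeff_smul]
    by_cases h0 : α y = 0
    · rw [h0, zero_smul]
    · have h1 := hmin y (Finset.mem_filter.mpr ⟨hy, h0⟩)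
      rw [coeff_shiftF_Nf _ _ _ _ h1, if_neg, smul_zero]
      rintro ⟨h2, h3⟩
      exact hne (Prod.ext h3.symm h2.symm)
  · intro h1
    exact absurd hx.1 h1

end Pool.Agent.X331.KM
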