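import Mathlib
import Pool.Agent.X331.KM.Herm
set_option autoImplicit false
set_option linter.unusedSectionVars false

/-! # The dimension count -/

namespace Pool.Agent.X331.KM

open Polynomial

variable {F : Type} [Field F] [Fintype F] [DecidableEq F] {σ : Type} [Fintype σ] [DecidableEq σ]

/-- the `i,j` Taylor coefficient of `P` at `(s, b)` -/
noncomputable def jet (s : F) (b : σ → F) (i : ℕ) (j : σ →₀ ℕ) : Ay F σ →ₗ[F] F :=
  (Polynomial.lcoeff F i) ∘ₗ (Polynomial.taylor s) ∘ₗ
    ((MvPolynomial.lcoeff (R := F[X]) j).restrictScalars F) ∘ₗ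
    ((shift b).toLinearMap.restrictScalars F)

lemma jet_apply (s : F) (b : σ → F) (i : ℕ) (j : σ →₀ ℕ) (P : Ay F σ) :
    jet s b i j P = (Polynomial.taylor s (MvPolynomial.coeff j (shift b P))).coeff i := rfl

lemma JP_of_jet (s : F) (b : σ → F) (μ : ℕ) (P : Ay F σ)
    (h : ∀ i < μ, ∀ j : σ →₀ ℕ, (∀ l, j l < μ) → jet s b i j P = 0) : JP s μ (shift b P) := by
  intro j
  by_cases hj : μ ≤ j.degree
  · rw [Nat.sub_eq_zero_of_le hj, pow_zero]
    exact one_dvd _
  · refine (pow_dvd_pow _ (Nat.sub_le _ _)).trans ?_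
    rw [Polynomial.X_sub_C_pow_dvd_iff, Polynomial.X_pow_dvd_iff]
    intro i hi
    have := h i hi j (fun l => lt_of_le_of_lt (Finsupp.le_degree l j) (not_le.mp hj))
    rw [jet_apply, Polynomial.taylor_apply] at this
    exact this

/-- exponents with all entries less than `v` -/
noncomputable def box (σ : Type) [Fintype σ] [DecidableEq σ] (v : ℕ) : Finset (σ →₀ ℕ) :=
  (Fintype.piFinset fun _ : σ => Finset.range v).map Finsupp.equivFunOnFinite.symm.toEmbedding

lemma mem_box {v : ℕ} {j : σ →₀ ℕ} : j ∈ box σ v ↔ ∀ l, j l < v := by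
  unfold box
  rw [Finset.mem_map_equiv, Fintype.mem_piFinset]
  simp

lemma card_box (v : ℕ) : (box σ v).card = v ^ Fintype.card σ := by
  unfold box
  rw [Finset.card_map, Fintype.card_piFinset]
  simp

lemma degree_of_mem_box {v : ℕ} {j : σ →₀ ℕ} (h : j ∈ box σ v) :
    j.degree + Fintype.card σ ≤ Fintype.card σ * v := by
  rw [mem_box] at h
  rw [Finsupp.degree_eq_sum]
  have h1 : ∑ l, j l + Fintype.card σ = ∑ l, (j l + 1) := by
    rw [Finset.sum_add_distrib]
    simp
  rw [h1]
  calc ∑ l, (j l + 1) ≤ ∑ _l : σ, v := Finset.sum_le_sum fun l _ => h l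
    _ = _ := by simp

/-- The dimension count behind the maximal inequality. -/
theorem key (g : F × (σ → F) → ℕ) (a : (σ → F) → (σ → F)) (M : ℕ) (v : ℕ → ℕ)
    (hv : ∀ D, Fintype.card σ * Fintype.card F * v D ≤ D) :
    ∑ D : Fin M, (Finset.univ.filter fun ω : σ → F =>
        2 * (D : ℕ) < ∑ s, g (s, fun l => a ω l + s * ω l)).card * v D ^ Fintype.card σ ≤
      ∑ x, g x ^ (Fintype.card σ + 1) := by
  classical
  set Ω : ℕ → Finset (σ → F) := fun D => Finset.univ.filter fun ω : σ → F =>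
        2 * D < ∑ s, g (s, fun l => a ω l + s * ω l) with hΩ
  set I : ℕ → Finset ((σ → F) × (σ →₀ ℕ)) := fun D => Ω D ×ˢ box σ (v D) with hI
  set B : F × (σ → F) → Finset (ℕ × (σ →₀ ℕ)) := fun x => Finset.range (g x) ×ˢ box σ (g x) with hB
  have cI : ∀ D, (I D).card = (Ω D).card * v D ^ Fintype.card σ := by
    intro D
    rw [hI]
    simp only [Finset.card_product, card_box]
  have cB : ∀ x, (B x).card = g x ^ (Fintype.card σ + 1) := by
    intro x
    rw [hB]
    simp only [Finset.card_product, card_box, Finset.card_range]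
    ring
  have e1 : ∑ D : Fin M, (Ω D).card * v D ^ Fintype.card σ =
      Fintype.card (Σ D : Fin M, {x // x ∈ I D}) := by
    rw [Fintype.card_sigma]
    refine Finset.sum_congr rfl fun D _ => ?_
    rw [Fintype.card_coe, cI]
  have e2 : ∑ x, g x ^ (Fintype.card σ + 1) =
      Fintype.card (Σ x : F × (σ → F), {y // y ∈ B x}) := by
    rw [Fintype.card_sigma]
    refine Finset.sum_congr rfl fun x _ => ?_
    rw [Fintype.card_coe, cB]
  change ∑ D : Fin M, (Ω D).card * v D ^ Fintype.card σ ≤ _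
  rw [e1, e2]
  by_contra hcon
  rw [not_le] at hcon
  -- the polynomial attached to a vector of coefficients
  set P : ((Σ D : Fin M, {x // x ∈ I D}) → F) →ₗ[F] Ay F σ :=
    Fintype.linearCombination F (fun z => hom σ F z.1 (Nf z.2.1.1 z.2.1.2)) with hP
  set Φ : ((Σ D : Fin M, {x // x ∈ I D}) → F) →ₗ[F]
      ((Σ x : F × (σ → F), {y // y ∈ B x}) → F) :=
    LinearMap.pi (fun w => (jet w.1.1 w.1.2 w.2.1.1 w.2.1.2) ∘ₗ P) with hΦ
  have hker : LinearMap.ker Φ ≠ ⊥ := by
    apply LinearMap.ker_ne_bot_of_finrank_lt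
    rw [Module.finrank_fintype_fun_eq_card, Module.finrank_fintype_fun_eq_card]
    exact hcon
  obtain ⟨α, hα, hne⟩ := Submodule.exists_mem_ne_zero_of_ne_bot hker
  rw [LinearMap.mem_ker] at hα
  -- vanishing
  have hvan : ∀ x : F × (σ → F), JP x.1 (g x) (shift x.2 (P α)) := by
    intro x
    apply JP_of_jet
    intro i hi j hj
    have hmem : (i, j) ∈ B x := by
      rw [hB]
      simp only [Finset.mem_product, Finset.mem_range, mem_box]
      exact ⟨hi, hj⟩
    exact congrFun hα ⟨x, ⟨(i, j), hmem⟩⟩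
  -- the top degree
  obtain ⟨z0, hz0⟩ := Function.ne_iff.mp hne
  have hz0' : α z0 ≠ 0 := hz0
  obtain ⟨z1, hz1, hmax⟩ := Finset.exists_max_image (Finset.univ.filter fun z => α z ≠ 0)
    (fun z => (z.1 : ℕ)) ⟨z0, Finset.mem_filter.mpr ⟨Finset.mem_univ _, hz0'⟩⟩
  set D0 : Fin M := z1.1 with hD0
  -- coefficient function at level D0
  set β : (σ → F) × (σ →₀ ℕ) → F := fun x => if h : x ∈ I D0 then α ⟨D0, ⟨x, h⟩⟩ else 0 with hβ
  have hβne : ∃ x ∈ I D0, β x ≠ 0 := by
    refine ⟨z1.2.1, z1.2.2, ?_⟩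
    have : β z1.2.1 = α z1 := by
      simp only [hβ]
      rw [dif_pos z1.2.2]
    rw [this]
    exact (Finset.mem_filter.mp hz1).2
  obtain ⟨x, hx, hcoeff⟩ := exists_coeff_ne (I D0) β hβne
  obtain ⟨ω, j⟩ := x
  have hxΩ : ω ∈ Ω D0 ∧ j ∈ box σ (v D0) := Finset.mem_product.mp hx
  have hdegN : ∀ (D : ℕ) (y : (σ → F) × (σ →₀ ℕ)), y ∈ I D → (Nf y.1 y.2).totalDegree ≤ D := by
    intro D y hy
    have hy' : y.1 ∈ Ω D ∧ y.2 ∈ box σ (v D) := Finset.mem_product.mp hy
    have h1 := degree_of_mem_box hy'.2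
    have h2 := totalDegree_Nf y.1 y.2
    have h3 := hv D
    have h4 : Fintype.card σ * (Fintype.card F - 1) ≤ Fintype.card σ * Fintype.card F :=
      Nat.mul_le_mul_left _ (Nat.sub_le _ _)
    have h5 : Fintype.card F * (y.2.degree + Fintype.card σ) ≤
        Fintype.card F * (Fintype.card σ * v D) := Nat.mul_le_mul_left _ h1
    nlinarith
  -- top structure of the polynomial along the line
  have hTop : Top D0 (lineSub (a ω) ω (P α))
      (shiftF ω (∑ y ∈ I D0, β y • Nf y.1 y.2)) := by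
    have hPα : P α = ∑ D : Fin M, ∑ y : {x // x ∈ I D}, α ⟨D, y⟩ • hom σ F D (Nf y.1.1 y.1.2) := by
      rw [hP, Fintype.linearCombination_apply, Fintype.sum_sigma]
    have hsm : ∀ (c : F) (H : Ay F σ), lineSub (a ω) ω (c • H) = c • lineSub (a ω) ω H := by
      intro c H
      have h5 : c • H = (C c : F[X]) • H := by
        rw [← algebraMap_smul (R := F) F[X] c H]
        rfl
      rw [h5, map_smul]
      rw [← algebraMap_smul (R := F) F[X] c (lineSub (a ω) ω H)]
      rfl
    have hline : lineSub (a ω) ω (P α) = ∑ D : Fin M, ∑ y : {x // x ∈ I D},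
        α ⟨D, y⟩ • lineSub (a ω) ω (hom σ F D (Nf y.1.1 y.1.2)) := by
      rw [hPα, map_sum]
      refine Finset.sum_congr rfl fun D _ => ?_
      rw [map_sum]
      exact Finset.sum_congr rfl fun y _ => hsm _ _
    rw [hline]
    have hright : shiftF ω (∑ y ∈ I D0, β y • Nf y.1 y.2) = ∑ D : Fin M, if D = D0 then
        shiftF ω (∑ y ∈ I D0, β y • Nf y.1 y.2) else 0 := by
      rw [Finset.sum_ite_eq' Finset.univ D0]
      simp
    rw [hright]
    refine Top_sum _ fun D _ => ?_
    split_ifs with hD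
    · subst hD
      rw [map_sum, ← Finset.sum_coe_sort (I D0)]
      refine Top_sum _ fun y _ => ?_
      have : β y.1 = α ⟨D0, y⟩ := by
        simp only [hβ]
        rw [dif_pos y.2]
      rw [map_smul, this]
      exact Top_smul _ (Top_line _ _ (hdegN _ _ y.2))
    · rcases lt_or_gt_of_ne (fun h : (D : ℕ) = (D0 : ℕ) => hD (Fin.ext h)) with hlt | hgt
      · have h0 : Top (D : ℕ) (∑ y : {x // x ∈ I D},
            α ⟨D, y⟩ • lineSub (a ω) ω (hom σ F D (Nf y.1.1 y.1.2)))
            (∑ y : {x // x ∈ I D}, α ⟨D, y⟩ • shiftF ω (Nf y.1.1 y.1.2)) :=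
          Top_sum _ fun y _ => Top_smul _ (Top_line _ _ (hdegN _ _ y.2))
        exact Top_lower h0 hlt
      · have : ∑ y : {x // x ∈ I D},
            α ⟨D, y⟩ • lineSub (a ω) ω (hom σ F D (Nf y.1.1 y.1.2)) = 0 := by
          refine Finset.sum_eq_zero fun y _ => ?_
          have h0 : α ⟨D, y⟩ = 0 := by
            by_contra hne0
            have := hmax ⟨D, y⟩ (Finset.mem_filter.mpr ⟨Finset.mem_univ _, hne0⟩)
            exact absurd this (not_le.mpr hgt)
          rw [h0, zero_smul]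
        rw [this]
        exact Top_zero _
  have hjdeg : j.degree ≤ D0 := by
    by_contra hlt
    exact hcoeff (hTop.p0 j (not_le.mp hlt))
  have hnat : (MvPolynomial.coeff j (lineSub (a ω) ω (P α))).natDegree ≤ (D0 : ℕ) - j.degree := by
    rw [Polynomial.natDegree_le_iff_coeff_eq_zero]
    intro i hi
    exact hTop.hi j i (by omega)
  have hG : 2 * (D0 : ℕ) < ∑ s, g (s, fun l => a ω l + s * ω l) := (Finset.mem_filter.mp hxΩ.1).2
  have hsmall : (D0 : ℕ) - j.degree + Fintype.card F * j.degree <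
      ∑ s, g (s, fun l => a ω l + s * ω l) := by
    have h1 := degree_of_mem_box hxΩ.2
    have h3 := hv D0
    have h5 : Fintype.card F * (j.degree + Fintype.card σ) ≤
        Fintype.card F * (Fintype.card σ * v D0) := Nat.mul_le_mul_left _ h1
    have h6 : Fintype.card F * j.degree ≤ D0 := by nlinarith
    omega
  have hzero := coeff_eq_zero_of_JP (fun s => g (s, fun l => a ω l + s * ω l)) (a ω) ω (P α)
    (fun s => hvan (s, fun l => a ω l + s * ω l)) j _ hnat hsmall
  have hne' := hTop.eq j ((D0 : ℕ) - j.degree) (by omega)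
  rw [hzero, Polynomial.coeff_zero] at hne'
  exact hcoeff hne'.symm

end Pool.Agent.X331.KM
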