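import Mathlib
import Pool.Agent.X331.KM.Key
set_option autoImplicit false
set_option linter.unusedSectionVars false

/-! # The maximal inequality in a chart -/

namespace Pool.Agent.X331.KM

open Finset

lemma num (N G M m : ℕ) (hN : 1 ≤ N) (hG : 16 * N ≤ G) (hM : G ≤ M) :
    G ^ (m + 1) ≤ 8 * ∑ D ∈ (Finset.range M).filter (fun D => 2 * D < G), (8 * N * (D / N)) ^ m := by
  have h1 : ∑ D ∈ Finset.Icc ((G + 3) / 4) ((G - 1) / 2), G ^ m ≤
      ∑ D ∈ (Finset.range M).filter (fun D => 2 * D < G), (8 * N * (D / N)) ^ m := by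
    calc ∑ D ∈ Finset.Icc ((G + 3) / 4) ((G - 1) / 2), G ^ m
        ≤ ∑ D ∈ Finset.Icc ((G + 3) / 4) ((G - 1) / 2), (8 * N * (D / N)) ^ m := by
          refine Finset.sum_le_sum fun D hD => Nat.pow_le_pow_left ?_ m
          rw [Finset.mem_Icc] at hD
          have h2 : D < (D / N + 1) * N := by
            have := Nat.lt_mul_div_succ D (show 0 < N by omega)
            rw [mul_comm]
            exact this
          have h3 : G ≤ 4 * D := by omega
          nlinarith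
      _ ≤ _ := by
          refine Finset.sum_le_sum_of_subset fun D hD => ?_
          rw [Finset.mem_Icc] at hD
          rw [Finset.mem_filter, Finset.mem_range]
          omega
  rw [Finset.sum_const, smul_eq_mul, Nat.card_Icc] at h1
  have h4 : G ≤ 8 * ((G - 1) / 2 + 1 - (G + 3) / 4) := by omega
  calc G ^ (m + 1) = G * G ^ m := by ring
    _ ≤ 8 * ((G - 1) / 2 + 1 - (G + 3) / 4) * G ^ m := Nat.mul_le_mul_right _ h4
    _ = 8 * (((G - 1) / 2 + 1 - (G + 3) / 4) * G ^ m) := by ring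
    _ ≤ _ := Nat.mul_le_mul_left _ h1

variable {F : Type} [Field F] [Fintype F] [DecidableEq F] {σ : Type} [Fintype σ] [DecidableEq σ]

/-- integral version -/
theorem chart_nat [Nonempty σ] (g : F × (σ → F) → ℕ) (a : (σ → F) → (σ → F)) :
    ∑ ω : σ → F, (∑ s, g (s, fun l => a ω l + s * ω l)) ^ (Fintype.card σ + 1) ≤
      8 ^ (Fintype.card σ + 1) * (Fintype.card σ * Fintype.card F) ^ Fintype.card σ *
        ∑ x, g x ^ (Fintype.card σ + 1) +
      Fintype.card (σ → F) * (16 * (Fintype.card σ * Fintype.card F)) ^ (Fintype.card σ + 1) := by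
  classical
  set m := Fintype.card σ with hm
  set N := m * Fintype.card F with hN
  have hN1 : 1 ≤ N := Nat.mul_pos Fintype.card_pos Fintype.card_pos
  set G : (σ → F) → ℕ := fun ω => ∑ s, g (s, fun l => a ω l + s * ω l) with hG
  set M : ℕ := ∑ ω, G ω with hM
  have hGM : ∀ ω, G ω ≤ M := fun ω => Finset.single_le_sum (fun _ _ => Nat.zero_le _)
    (Finset.mem_univ ω)
  have hkey := key g a M (fun D => D / N) (fun D => by
    rw [← hm, ← hN]
    exact Nat.mul_div_le D N)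
  rw [← hm] at hkey
  have hswap : ∑ D : Fin M, (Finset.univ.filter fun ω : σ → F => 2 * (D : ℕ) < G ω).card *
      ((D : ℕ) / N) ^ m = ∑ ω, ∑ D ∈ (Finset.range M).filter (fun D => 2 * D < G ω),
        (D / N) ^ m := by
    rw [Fin.sum_univ_eq_sum_range (fun D => (Finset.univ.filter fun ω : σ → F =>
      2 * (D : ℕ) < G ω).card * ((D : ℕ) / N) ^ m) M]
    simp_rw [Finset.card_filter, Finset.sum_mul]
    rw [Finset.sum_comm]
    refine Finset.sum_congr rfl fun ω _ => ?_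
    rw [Finset.sum_filter]
    refine Finset.sum_congr rfl fun D _ => ?_
    split_ifs <;> simp
  have hkey' : ∑ ω, ∑ D ∈ (Finset.range M).filter (fun D => 2 * D < G ω), (D / N) ^ m ≤
      ∑ x, g x ^ (m + 1) := by
    rw [← hswap]
    exact hkey
  have hpt : ∀ ω, G ω ^ (m + 1) ≤ 8 ^ (m + 1) * N ^ m *
      (∑ D ∈ (Finset.range M).filter (fun D => 2 * D < G ω), (D / N) ^ m) +
      (16 * N) ^ (m + 1) := by
    intro ω
    by_cases h : 16 * N ≤ G ω
    · have h1 := num N (G ω) M m hN1 h (hGM ω)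
      simp_rw [mul_pow] at h1
      rw [← Finset.mul_sum] at h1
      calc G ω ^ (m + 1) ≤ _ := h1
        _ = 8 ^ (m + 1) * N ^ m *
          (∑ D ∈ (Finset.range M).filter (fun D => 2 * D < G ω), (D / N) ^ m) := by ring
        _ ≤ _ := Nat.le_add_right _ _
    · calc G ω ^ (m + 1) ≤ (16 * N) ^ (m + 1) := Nat.pow_le_pow_left (not_le.mp h).le _
        _ ≤ _ := Nat.le_add_left _ _
  calc ∑ ω, G ω ^ (m + 1) ≤ ∑ ω, (8 ^ (m + 1) * N ^ m *
      (∑ D ∈ (Finset.range M).filter (fun D => 2 * D < G ω), (D / N) ^ m) +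
      (16 * N) ^ (m + 1)) := Finset.sum_le_sum fun ω _ => hpt ω
    _ = 8 ^ (m + 1) * N ^ m *
      (∑ ω, ∑ D ∈ (Finset.range M).filter (fun D => 2 * D < G ω), (D / N) ^ m) +
      Fintype.card (σ → F) * (16 * N) ^ (m + 1) := by
        rw [Finset.sum_add_distrib, ← Finset.mul_sum, Finset.sum_const, Finset.card_univ,
          smul_eq_mul]
    _ ≤ _ := Nat.add_le_add_right (Nat.mul_le_mul_left _ hkey') _

/-- real version -/
theorem chart_real [Nonempty σ] (f : F × (σ → F) → ℝ) (hf : ∀ x, 0 ≤ f x)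
    (a : (σ → F) → (σ → F)) :
    ∑ ω : σ → F, (∑ s, f (s, fun l => a ω l + s * ω l)) ^ (Fintype.card σ + 1) ≤
      8 ^ (Fintype.card σ + 1) * ((Fintype.card σ : ℝ) * Fintype.card F) ^ Fintype.card σ *
        ∑ x, f x ^ (Fintype.card σ + 1) := by
  classical
  set m := Fintype.card σ with hm
  set K : ℝ := (Fintype.card (σ → F) : ℝ) * (16 * ((m : ℝ) * Fintype.card F)) ^ (m + 1) with hK
  have hlim : ∀ x, Filter.Tendsto (fun L : ℕ => ((⌊f x * (L : ℝ)⌋₊ : ℕ) : ℝ) / (L : ℝ))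
      Filter.atTop (nhds (f x)) := fun x =>
    (tendsto_nat_floor_mul_div_atTop (hf x)).comp tendsto_natCast_atTop_atTop
  have hL : Filter.Tendsto (fun L : ℕ => ∑ ω : σ → F,
      (∑ s, ((⌊f (s, fun l => a ω l + s * ω l) * (L : ℝ)⌋₊ : ℕ) : ℝ) / (L : ℝ)) ^ (m + 1))
      Filter.atTop (nhds (∑ ω : σ → F, (∑ s, f (s, fun l => a ω l + s * ω l)) ^ (m + 1))) :=
    tendsto_finset_sum _ fun ω _ => (tendsto_finset_sum _ fun s _ => hlim _).pow _
  have hR1 : Filter.Tendsto (fun L : ℕ => K / (L : ℝ) ^ (m + 1)) Filter.atTop (nhds 0) :=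
    Filter.Tendsto.div_atTop tendsto_const_nhds
      ((Filter.tendsto_pow_atTop (by omega)).comp tendsto_natCast_atTop_atTop)
  have hR : Filter.Tendsto (fun L : ℕ => 8 ^ (m + 1) * ((m : ℝ) * Fintype.card F) ^ m *
      ∑ x, (((⌊f x * (L : ℝ)⌋₊ : ℕ) : ℝ) / (L : ℝ)) ^ (m + 1) + K / (L : ℝ) ^ (m + 1))
      Filter.atTop (nhds (8 ^ (m + 1) * ((m : ℝ) * Fintype.card F) ^ m *
        ∑ x, f x ^ (m + 1) + 0)) :=
    ((tendsto_finset_sum _ fun x _ => (hlim x).pow _).const_mul _).add hR1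
  rw [add_zero] at hR
  refine le_of_tendsto_of_tendsto hL hR ?_
  filter_upwards [Filter.eventually_gt_atTop 0] with L hL0
  have hLpos : (0 : ℝ) < L := by exact_mod_cast hL0
  have h := chart_nat (fun x => ⌊f x * (L : ℝ)⌋₊) a
  rw [← hm] at h
  have h' : (∑ ω : σ → F, (∑ s, ((⌊f (s, fun l => a ω l + s * ω l) * (L : ℝ)⌋₊ : ℕ) : ℝ)) ^
      (m + 1)) ≤ 8 ^ (m + 1) * ((m : ℝ) * Fintype.card F) ^ m *
      ∑ x, ((⌊f x * (L : ℝ)⌋₊ : ℕ) : ℝ) ^ (m + 1) + K := by
    rw [hK]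
    exact_mod_cast h
  have hpos : (0 : ℝ) < (L : ℝ) ^ (m + 1) := pow_pos hLpos _
  have h2 := div_le_div_of_nonneg_right h' hpos.le
  have e1 : (∑ ω : σ → F, (∑ s, ((⌊f (s, fun l => a ω l + s * ω l) * (L : ℝ)⌋₊ : ℕ) : ℝ)) ^
      (m + 1)) / (L : ℝ) ^ (m + 1) = ∑ ω : σ → F,
      (∑ s, ((⌊f (s, fun l => a ω l + s * ω l) * (L : ℝ)⌋₊ : ℕ) : ℝ) / (L : ℝ)) ^ (m + 1) := by
    rw [Finset.sum_div]
    refine Finset.sum_congr rfl fun ω _ => ?_
    rw [← Finset.sum_div, div_pow]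
  have e2 : (8 ^ (m + 1) * ((m : ℝ) * Fintype.card F) ^ m *
      ∑ x, ((⌊f x * (L : ℝ)⌋₊ : ℕ) : ℝ) ^ (m + 1) + K) / (L : ℝ) ^ (m + 1) =
      8 ^ (m + 1) * ((m : ℝ) * Fintype.card F) ^ m *
      ∑ x, (((⌊f x * (L : ℝ)⌋₊ : ℕ) : ℝ) / (L : ℝ)) ^ (m + 1) + K / (L : ℝ) ^ (m + 1) := by
    rw [add_div, mul_div_assoc, Finset.sum_div]
    congr 2
    refine Finset.sum_congr rfl fun x _ => ?_
    rw [div_pow]
  rw [e1, e2] at h2
  exact h2

end Pool.Agent.X331.KM
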