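import Mathlib
set_option autoImplicit false
set_option linter.unusedSectionVars false

/-! # Subspaces of a finite vector space: counting -/

namespace Pool.Agent.X331.KM

open Finset Module

/-- the `k`-dimensional subspaces -/
noncomputable def gr (F V : Type) [Field F] [AddCommGroup V] [Module F V] [Finite V] (k : ℕ) :
    Finset (Submodule F V) :=
  (Set.toFinite {W : Submodule F V | finrank F W = k}).toFinset

section

variable {F : Type} [Field F] [Fintype F] {V : Type} [AddCommGroup V] [Module F V] [Finite V]

instance finQuot (d : Submodule F V) : Finite (V ⧸ d) :=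
  Finite.of_surjective d.mkQ d.mkQ_surjective

lemma mem_gr {k : ℕ} {W : Submodule F V} : W ∈ gr F V k ↔ finrank F W = k := by
  simp [gr]

lemma card_gr_one : (gr F V 1).card = ∑ i ∈ Finset.range (finrank F V), Fintype.card F ^ i := by
  have h1 := Projectivization.card_of_finrank (k := F) (V := V) (n := finrank F V) rfl
  rw [Nat.card_congr (Projectivization.equivSubmodule F V), Nat.card_eq_fintype_card (α := F)] at h1
  rw [← h1]
  change _ = Nat.card ({W : Submodule F V | finrank F W = 1} : Set _)
  rw [Nat.card_coe_set_eq, gr, Set.ncard_eq_toFinset_card]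

lemma card_gr_congr {V' : Type} [AddCommGroup V'] [Module F V'] [Finite V']
    (h : finrank F V = finrank F V') (k : ℕ) : (gr F V k).card = (gr F V' k).card := by
  have e : V ≃ₗ[F] V' := LinearEquiv.ofFinrankEq V V' h
  refine Finset.card_bij' (fun W _ => W.map e.toLinearMap) (fun W _ => W.map e.symm.toLinearMap)
    ?_ ?_ ?_ ?_
  · intro W hW
    rw [mem_gr] at hW ⊢
    rw [← hW]
    exact LinearEquiv.finrank_map_eq e W
  · intro W hW
    rw [mem_gr] at hW ⊢
    rw [← hW]
    exact LinearEquiv.finrank_map_eq e.symm W
  · intro W _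
    rw [← Submodule.map_comp]
    simp
  · intro W _
    rw [← Submodule.map_comp]
    simp

/-- lines in a `k`-space -/
lemma card_lines_le {k : ℕ} {W : Submodule F V} (hW : finrank F W = k) [DecidableRel
    ((· ≤ ·) : Submodule F V → Submodule F V → Prop)] :
    ((gr F V 1).filter fun d => d ≤ W).card = ∑ i ∈ Finset.range k, Fintype.card F ^ i := by
  rw [← hW, ← card_gr_one (V := W)]
  symm
  refine Finset.card_bij' (fun d _ => d.map W.subtype) (fun d _ => d.comap W.subtype)
    ?_ ?_ ?_ ?_
  · intro d hd
    rw [mem_gr] at hd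
    rw [Finset.mem_filter, mem_gr]
    refine ⟨?_, Submodule.map_subtype_le W d⟩
    rw [← hd]
    exact Submodule.finrank_map_subtype_eq W d
  · intro d hd
    rw [Finset.mem_filter, mem_gr] at hd
    rw [mem_gr, ← hd.1]
    have h1 : (d.comap W.subtype).map W.subtype = d := by
      rw [Submodule.map_comap_subtype, inf_eq_right.mpr hd.2]
    have h2 := Submodule.finrank_map_subtype_eq W (d.comap W.subtype)
    rw [h1] at h2
    exact h2.symm
  · intro d _
    exact Submodule.comap_map_eq_of_injective W.injective_subtype d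
  · intro d hd
    rw [Finset.mem_filter] at hd
    rw [Submodule.map_comap_subtype, inf_eq_right.mpr hd.2]

lemma finrank_comap_mkQ (d : Submodule F V) (W' : Submodule F (V ⧸ d)) :
    finrank F (W'.comap d.mkQ) = finrank F W' + finrank F d := by
  have h1 := Submodule.finrank_quotient_add_finrank (W'.comap d.mkQ)
  have h2 := Submodule.finrank_quotient_add_finrank W'
  have h3 := Submodule.finrank_quotient_add_finrank d
  have h4 : finrank F ((V ⧸ d) ⧸ W') = finrank F (V ⧸ (W'.comap d.mkQ)) := by
    have hd : d ≤ W'.comap d.mkQ := by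
      intro x hx
      rw [Submodule.mem_comap, Submodule.mkQ_apply, (Submodule.Quotient.mk_eq_zero d).mpr hx]
      exact W'.zero_mem
    have e := Submodule.quotientQuotientEquivQuotient d (W'.comap d.mkQ) hd
    have h5 : (W'.comap d.mkQ).map d.mkQ = W' :=
      Submodule.map_comap_eq_of_surjective d.mkQ_surjective W'
    rw [h5] at e
    exact e.finrank_eq
  omega

/-- sums over the `k`-spaces containing a line -/
lemma sum_above {k : ℕ} {d : Submodule F V} (hd : finrank F d = 1) [DecidableRel
    ((· ≤ ·) : Submodule F V → Submodule F V → Prop)] (Y : Submodule F (V ⧸ d) → ℝ) :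
    ∑ W ∈ (gr F V (k + 1)).filter (fun W => d ≤ W), Y (W.map d.mkQ) =
      ∑ W' ∈ gr F (V ⧸ d) k, Y W' := by
  refine Finset.sum_nbij' (fun W => W.map d.mkQ) (fun W' => W'.comap d.mkQ) ?_ ?_ ?_ ?_ ?_
  · intro W hW
    rw [Finset.mem_filter, mem_gr] at hW
    rw [mem_gr]
    have h1 : (W.map d.mkQ).comap d.mkQ = W := by
      rw [Submodule.comap_map_mkQ, sup_eq_right.mpr hW.2]
    have h2 := finrank_comap_mkQ d (W.map d.mkQ)
    rw [h1] at h2
    omega
  · intro W' hW'
    rw [mem_gr] at hW'
    rw [Finset.mem_filter, mem_gr, finrank_comap_mkQ, hW', hd]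
    refine ⟨rfl, ?_⟩
    intro x hx
    rw [Submodule.mem_comap, Submodule.mkQ_apply, (Submodule.Quotient.mk_eq_zero d).mpr hx]
    exact W'.zero_mem
  · intro W hW
    rw [Finset.mem_filter] at hW
    rw [Submodule.comap_map_mkQ, sup_eq_right.mpr hW.2]
  · intro W' _
    exact Submodule.map_comap_eq_of_surjective d.mkQ_surjective W'
  · intro W _
    rfl

/-- at most one line contains a given nonzero vector -/
lemma card_lines_through {z : V} (hz : z ≠ 0) [DecidablePred fun d : Submodule F V => z ∈ d] :
    ((gr F V 1).filter fun d => z ∈ d).card ≤ 1 := by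
  rw [Finset.card_le_one]
  intro d hd d' hd'
  rw [Finset.mem_filter, mem_gr] at hd hd'
  have key : ∀ e : Submodule F V, finrank F e = 1 → z ∈ e → e = F ∙ z := by
    intro e he hze
    symm
    apply Submodule.eq_of_le_of_finrank_eq
    · rw [Submodule.span_singleton_le_iff_mem]
      exact hze
    · rw [he, finrank_span_singleton hz]
  rw [key d hd.1 hd.2, key d' hd'.1 hd'.2]

end

end Pool.Agent.X331.KM
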