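import Mathlib
set_option autoImplicit false
set_option linter.unusedSectionVars false

/-! # Hölder type inequalities -/

namespace Pool.Agent.X331.KM

open Finset

lemma holder_pow {ι : Type} (T : Finset ι) (u w : ι → ℝ) (hu : ∀ i, 0 ≤ u i) (hw : ∀ i, 0 ≤ w i)
    (N : ℕ) (hN : 1 ≤ N) :
    (∑ i ∈ T, u i * w i) ^ (N + 1) ≤
      (∑ i ∈ T, u i ^ (((N : ℝ) + 1) / N)) ^ N * ∑ i ∈ T, w i ^ (N + 1) := by
  have hN0 : (0 : ℝ) < N := by exact_mod_cast hN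
  have hconj : Real.HolderConjugate (((N : ℝ) + 1) / N) ((N : ℝ) + 1) := by
    rw [Real.holderConjugate_iff]
    constructor
    · rw [one_lt_div hN0]
      linarith
    · field_simp
  have h := Real.inner_le_Lp_mul_Lq_of_nonneg T hconj (fun i _ => hu i) (fun i _ => hw i)
  set A := ∑ i ∈ T, u i ^ (((N : ℝ) + 1) / N) with hA
  set B := ∑ i ∈ T, w i ^ ((N : ℝ) + 1) with hB
  have hA0 : 0 ≤ A := Finset.sum_nonneg fun i _ => Real.rpow_nonneg (hu i) _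
  have hB0 : 0 ≤ B := Finset.sum_nonneg fun i _ => Real.rpow_nonneg (hw i) _
  have hB' : B = ∑ i ∈ T, w i ^ (N + 1) := by
    refine Finset.sum_congr rfl fun i _ => ?_
    rw [← Real.rpow_natCast]
    push_cast
    rfl
  rw [← hB']
  have h0 : 0 ≤ ∑ i ∈ T, u i * w i := Finset.sum_nonneg fun i _ => mul_nonneg (hu i) (hw i)
  calc (∑ i ∈ T, u i * w i) ^ (N + 1) ≤
      (A ^ (1 / (((N : ℝ) + 1) / N)) * B ^ (1 / ((N : ℝ) + 1))) ^ (N + 1) :=
        pow_le_pow_left₀ h0 h _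
    _ = A ^ N * B := by
        rw [mul_pow]
        congr 1
        · rw [← Real.rpow_natCast, ← Real.rpow_mul hA0, ← Real.rpow_natCast]
          congr 1
          push_cast
          field_simp
        · rw [← Real.rpow_natCast, ← Real.rpow_mul hB0]
          have : 1 / ((N : ℝ) + 1) * ((N + 1 : ℕ) : ℝ) = 1 := by
            push_cast
            field_simp
          rw [this, Real.rpow_one]

lemma holder_g {ι : Type} (T : Finset ι) (g : ι → ℝ) (hg : ∀ i, 0 ≤ g i) (N K : ℕ) (hN : 1 ≤ N) :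
    (∑ i ∈ T, g i) ^ (N + 1) ≤
      (∑ i ∈ T, g i ^ (((N : ℝ) + 1) * K / ((K + 1) * N))) ^ N *
        ∑ i ∈ T, g i ^ (((N : ℝ) + 1) / (K + 1)) := by
  have hN0 : (0 : ℝ) < N := by exact_mod_cast hN
  have hK0 : (0 : ℝ) ≤ K := Nat.cast_nonneg K
  have h := holder_pow T (fun i => g i ^ ((K : ℝ) / (K + 1))) (fun i => g i ^ ((1 : ℝ) / (K + 1)))
    (fun i => Real.rpow_nonneg (hg i) _) (fun i => Real.rpow_nonneg (hg i) _) N hN
  have e1 : ∀ i, g i ^ ((K : ℝ) / (K + 1)) * g i ^ ((1 : ℝ) / (K + 1)) = g i := by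
    intro i
    rw [← Real.rpow_add_of_nonneg (hg i) (by positivity) (by positivity)]
    have : (K : ℝ) / (K + 1) + 1 / (K + 1) = 1 := by field_simp
    rw [this, Real.rpow_one]
  have e2 : ∀ i, (g i ^ ((K : ℝ) / (K + 1))) ^ (((N : ℝ) + 1) / N) =
      g i ^ (((N : ℝ) + 1) * K / ((K + 1) * N)) := by
    intro i
    rw [← Real.rpow_mul (hg i)]
    congr 1
    field_simp
  have e3 : ∀ i, (g i ^ ((1 : ℝ) / (K + 1))) ^ (N + 1) = g i ^ (((N : ℝ) + 1) / (K + 1)) := by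
    intro i
    rw [← Real.rpow_natCast, ← Real.rpow_mul (hg i)]
    congr 1
    push_cast
    field_simp
  simp only [e1, e2, e3] at h
  exact h

lemma holder_one {ι : Type} (T : Finset ι) (e : ι → ℝ) (he : ∀ i, 0 ≤ e i) (N : ℕ) (hN : 1 ≤ N) :
    (∑ i ∈ T, e i) ^ (N + 1) ≤ (∑ i ∈ T, e i ^ (((N : ℝ) + 1) / N)) ^ N * (T.card : ℝ) := by
  have h := holder_pow T e (fun _ => 1) he (fun _ => zero_le_one) N hN
  simpa using h

lemma holder_b {ι : Type} (T : Finset ι) (b : ι → ℝ) (hb : ∀ i, 0 ≤ b i) (K : ℕ) (hK : 1 ≤ K) :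
    (∑ i ∈ T, b i ^ (((K : ℝ) + 1) / K)) ^ K ≤ (∑ i ∈ T, b i) ^ (K - 1) * ∑ i ∈ T, b i ^ 2 := by
  obtain ⟨L, rfl⟩ : ∃ L, K = L + 1 := ⟨K - 1, by omega⟩
  rw [Nat.add_sub_cancel]
  rcases Nat.eq_zero_or_pos L with rfl | hL
  · simp only [zero_add, pow_one, pow_zero, one_mul]
    refine le_of_eq (Finset.sum_congr rfl fun i _ => ?_)
    rw [← Real.rpow_natCast]
    norm_num
  · have hL0 : (0 : ℝ) < L := by exact_mod_cast hL
    have h := holder_pow T (fun i => b i ^ ((L : ℝ) / (L + 1))) (fun i => b i ^ ((2 : ℝ) / (L + 1)))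
      (fun i => Real.rpow_nonneg (hb i) _) (fun i => Real.rpow_nonneg (hb i) _) L hL
    have e1 : ∀ i, b i ^ ((L : ℝ) / (L + 1)) * b i ^ ((2 : ℝ) / (L + 1)) =
        b i ^ ((((L + 1 : ℕ) : ℝ) + 1) / ((L + 1 : ℕ) : ℝ)) := by
      intro i
      rw [← Real.rpow_add_of_nonneg (hb i) (by positivity) (by positivity)]
      congr 1
      push_cast
      field_simp
      ring
    have e2 : ∀ i, (b i ^ ((L : ℝ) / (L + 1))) ^ (((L : ℝ) + 1) / L) = b i := by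
      intro i
      rw [← Real.rpow_mul (hb i)]
      have : (L : ℝ) / (L + 1) * ((L + 1) / L) = 1 := by field_simp
      rw [this, Real.rpow_one]
    have e3 : ∀ i, (b i ^ ((2 : ℝ) / (L + 1))) ^ (L + 1) = b i ^ 2 := by
      intro i
      rw [← Real.rpow_natCast, ← Real.rpow_mul (hb i), ← Real.rpow_natCast]
      congr 1
      push_cast
      field_simp
    simp only [e1, e2, e3] at h
    exact h

/-- the elementary inequality for one fibre -/
lemma fibre_sq {ι : Type} [DecidableEq ι] (T : Finset ι) (φ : ι → ℝ) (hφ : ∀ i, 0 ≤ φ i) (x0 : ι)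
    (hx0 : x0 ∈ T) (hmax : ∀ x ∈ T, φ x ≤ φ x0) :
    (∑ x ∈ T.erase x0, φ x) ^ 2 ≤ (∑ x ∈ T, φ x) ^ 2 - ∑ x ∈ T, φ x ^ 2 := by
  have h1 : ∑ x ∈ T, φ x = φ x0 + ∑ x ∈ T.erase x0, φ x := (Finset.add_sum_erase T φ hx0).symm
  have h2 : ∑ x ∈ T, φ x ^ 2 = φ x0 ^ 2 + ∑ x ∈ T.erase x0, φ x ^ 2 :=
    (Finset.add_sum_erase T (fun x => φ x ^ 2) hx0).symm
  have h3 : ∑ x ∈ T.erase x0, φ x ^ 2 ≤ φ x0 * ∑ x ∈ T.erase x0, φ x := by
    rw [Finset.mul_sum]
    refine Finset.sum_le_sum fun x hx => ?_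
    rw [sq]
    exact mul_le_mul_of_nonneg_right (hmax x (Finset.mem_of_mem_erase hx)) (hφ x)
  have h4 : 0 ≤ ∑ x ∈ T.erase x0, φ x := Finset.sum_nonneg fun x _ => hφ x
  have h5 := hφ x0
  rw [h1, h2]
  nlinarith [mul_nonneg h5 h4]

end Pool.Agent.X331.KM
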