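import Mathlib
import Pool.Agent.X331.KM.Gr
import Pool.Agent.X331.KM.Hold
set_option autoImplicit false
set_option linter.unusedSectionVars false

/-! # The two steps in the quotient -/

namespace Pool.Agent.X331.KM

open Finset Module

open scoped Classical in
/-- the sum of `f` over the coset `a + W` -/
noncomputable def cs {F V : Type} [Field F] [AddCommGroup V] [Module F V] [Fintype V]
    (f : V → ℝ) (W : Submodule F V) (a : V) : ℝ :=
  ∑ x ∈ Finset.univ.filter (fun x => x - a ∈ W), f x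

/-- the maximal inequality with constant `C` -/
def MI (N K : ℕ) (C : ℝ) : Prop :=
  ∀ (F : Type) [Field F] [Fintype F] (V : Type) [AddCommGroup V] [Module F V] [Fintype V],
    finrank F V = N → ∀ f : V → ℝ, (∀ x, 0 ≤ f x) → ∀ a : Submodule F V → V,
      ∑ W ∈ gr F V K, cs f W (a W) ^ N ≤
        C * ((gr F V K).card : ℝ) * (∑ x, f x ^ ((N : ℝ) / K)) ^ K

section

variable {F : Type} [Field F] [Fintype F] {V : Type} [AddCommGroup V] [Module F V] [Fintype V]

lemma cs_nonneg {f : V → ℝ} (hf : ∀ x, 0 ≤ f x) (W : Submodule F V) (a : V) : 0 ≤ cs f W a :=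
  Finset.sum_nonneg fun x _ => hf x

open scoped Classical in
lemma cs_le_sum {f : V → ℝ} (hf : ∀ x, 0 ≤ f x) (W : Submodule F V) (a : V) :
    cs f W a ≤ ∑ x, f x :=
  Finset.sum_le_sum_of_subset_of_nonneg (Finset.filter_subset _ _) fun x _ _ => hf x

open scoped Classical in
lemma card_coset (W : Submodule F V) (a : V) :
    (Finset.univ.filter (fun x : V => x - a ∈ W)).card = Fintype.card F ^ finrank F W := by
  rw [← Module.card_eq_pow_finrank (K := F) (V := W), Fintype.card_subtype]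
  refine Finset.card_bij' (fun x _ => x - a) (fun x _ => x + a) ?_ ?_ ?_ ?_
  · intro x hx
    simpa using hx
  · intro x hx
    simpa using hx
  · intro x _
    simp
  · intro x _
    simp

theorem step1 {N K : ℕ} (hN : 1 ≤ N) (hK : 1 ≤ K) {C : ℝ} (h : MI N K C)
    (hV : finrank F V = N) (g : V → ℝ) (hg : ∀ x, 0 ≤ g x) (a : Submodule F V → V) :
    ∑ W ∈ gr F V K, cs g W (a W) ^ (N + 1) ≤
      C * ((gr F V K).card : ℝ) * (∑ x, g x ^ (((N : ℝ) + 1) / (K + 1))) ^ (K + 1) := by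
  have hN0 : (0 : ℝ) < N := by exact_mod_cast hN
  have hK0 : (0 : ℝ) < K := by exact_mod_cast hK
  set Sg := ∑ x, g x ^ (((N : ℝ) + 1) / (K + 1)) with hSg
  have hSg0 : 0 ≤ Sg := Finset.sum_nonneg fun x _ => Real.rpow_nonneg (hg x) _
  set g1 : V → ℝ := fun x => g x ^ (((N : ℝ) + 1) * K / ((K + 1) * N)) with hg1
  have hg1n : ∀ x, 0 ≤ g1 x := fun x => Real.rpow_nonneg (hg x) _
  have h1 : ∀ W : Submodule F V, cs g W (a W) ^ (N + 1) ≤ cs g1 W (a W) ^ N * Sg := by
    intro W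
    refine (holder_g _ g hg N K hN).trans ?_
    refine mul_le_mul_of_nonneg_left ?_ (pow_nonneg (cs_nonneg hg1n W _) _)
    exact cs_le_sum (fun x => Real.rpow_nonneg (hg x) _) W (a W)
  have h2 := h F V hV g1 hg1n a
  have h3 : ∑ x, g1 x ^ ((N : ℝ) / K) = Sg := by
    refine Finset.sum_congr rfl fun x _ => ?_
    rw [hg1]
    simp only
    rw [← Real.rpow_mul (hg x)]
    congr 1
    field_simp
  rw [h3] at h2
  calc ∑ W ∈ gr F V K, cs g W (a W) ^ (N + 1) ≤ ∑ W ∈ gr F V K, cs g1 W (a W) ^ N * Sg :=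
        Finset.sum_le_sum fun W _ => h1 W
    _ = (∑ W ∈ gr F V K, cs g1 W (a W) ^ N) * Sg := by rw [Finset.sum_mul]
    _ ≤ (C * ((gr F V K).card : ℝ) * Sg ^ K) * Sg := mul_le_mul_of_nonneg_right h2 hSg0
    _ = C * ((gr F V K).card : ℝ) * Sg ^ (K + 1) := by ring

theorem step2 {N K : ℕ} (hK : 1 ≤ K) (hKN : K ≤ N) {C : ℝ} (hC : 0 ≤ C) (h : MI N K C)
    (hV : finrank F V = N) (e b : V → ℝ) (he : ∀ x, 0 ≤ e x) (hb : ∀ x, 0 ≤ b x)
    (heb : ∀ x, e x ^ (((N : ℝ) + 1) / (K + 1)) ≤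
      (Fintype.card F : ℝ) ^ (((N : ℝ) + 1) / (K + 1) - 1) * b x)
    (a : Submodule F V → V) :
    ∑ W ∈ gr F V K, cs e W (a W) ^ (N + 1) ≤
      C * ((gr F V K).card : ℝ) * ((Fintype.card F : ℝ) ^ N * ((∑ x, b x) ^ (K - 1) *
        ∑ x, b x ^ 2)) := by
  have hN : 1 ≤ N := hK.trans hKN
  have hN0 : (0 : ℝ) < N := by exact_mod_cast hN
  have hK0 : (0 : ℝ) < K := by exact_mod_cast hK
  set q : ℝ := (Fintype.card F : ℝ) with hq
  have hq0 : 0 < q := by
    rw [hq]
    exact_mod_cast Fintype.card_pos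
  set e1 : V → ℝ := fun x => e x ^ (((N : ℝ) + 1) / N) with he1
  have he1n : ∀ x, 0 ≤ e1 x := fun x => Real.rpow_nonneg (he x) _
  have h1 : ∀ W ∈ gr F V K, cs e W (a W) ^ (N + 1) ≤ cs e1 W (a W) ^ N * q ^ K := by
    intro W hW
    refine (holder_one _ e he N hN).trans (le_of_eq ?_)
    rw [card_coset, mem_gr.mp hW]
    push_cast
    rfl
  have h2 := h F V hV e1 he1n a
  have h3 : ∑ x, e1 x ^ ((N : ℝ) / K) = ∑ x, e x ^ (((N : ℝ) + 1) / K) := by
    refine Finset.sum_congr rfl fun x _ => ?_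
    rw [he1]
    simp only
    rw [← Real.rpow_mul (he x)]
    congr 1
    field_simp
  rw [h3] at h2
  have h4 : ∀ x, e x ^ (((N : ℝ) + 1) / K) ≤
      q ^ (((N : ℝ) - K) / K) * b x ^ (((K : ℝ) + 1) / K) := by
    intro x
    have h5 : e x ^ (((N : ℝ) + 1) / K) =
        (e x ^ (((N : ℝ) + 1) / (K + 1))) ^ (((K : ℝ) + 1) / K) := by
      rw [← Real.rpow_mul (he x)]
      congr 1
      field_simp
    rw [h5]
    refine (Real.rpow_le_rpow (Real.rpow_nonneg (he x) _) (heb x) (by positivity)).trans ?_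
    rw [Real.mul_rpow (Real.rpow_nonneg hq0.le _) (hb x), ← Real.rpow_mul hq0.le]
    refine le_of_eq ?_
    congr 2
    field_simp
    ring
  have h6 : (∑ x, e x ^ (((N : ℝ) + 1) / K)) ^ K ≤
      q ^ (N - K) * ((∑ x, b x) ^ (K - 1) * ∑ x, b x ^ 2) := by
    have h7 : ∑ x, e x ^ (((N : ℝ) + 1) / K) ≤
        q ^ (((N : ℝ) - K) / K) * ∑ x, b x ^ (((K : ℝ) + 1) / K) := by
      rw [Finset.mul_sum]
      exact Finset.sum_le_sum fun x _ => h4 x
    calc (∑ x, e x ^ (((N : ℝ) + 1) / K)) ^ K ≤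
        (q ^ (((N : ℝ) - K) / K) * ∑ x, b x ^ (((K : ℝ) + 1) / K)) ^ K :=
          pow_le_pow_left₀ (Finset.sum_nonneg fun x _ => Real.rpow_nonneg (he x) _) h7 _
      _ = q ^ (N - K) * (∑ x, b x ^ (((K : ℝ) + 1) / K)) ^ K := by
          rw [mul_pow]
          congr 1
          rw [← Real.rpow_natCast, ← Real.rpow_mul hq0.le, ← Real.rpow_natCast]
          congr 1
          rw [Nat.cast_sub hKN]
          field_simp
      _ ≤ _ := mul_le_mul_of_nonneg_left (holder_b _ b hb K hK) (by positivity)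
  calc ∑ W ∈ gr F V K, cs e W (a W) ^ (N + 1) ≤ ∑ W ∈ gr F V K, cs e1 W (a W) ^ N * q ^ K :=
        Finset.sum_le_sum h1
    _ = (∑ W ∈ gr F V K, cs e1 W (a W) ^ N) * q ^ K := by rw [Finset.sum_mul]
    _ ≤ (C * ((gr F V K).card : ℝ) * (∑ x, e x ^ (((N : ℝ) + 1) / K)) ^ K) * q ^ K :=
        mul_le_mul_of_nonneg_right h2 (by positivity)
    _ ≤ (C * ((gr F V K).card : ℝ) * (q ^ (N - K) * ((∑ x, b x) ^ (K - 1) *
          ∑ x, b x ^ 2))) * q ^ K := by
        refine mul_le_mul_of_nonneg_right (mul_le_mul_of_nonneg_left h6 (by positivity))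
          (by positivity)
    _ = _ := by
        have : q ^ N = q ^ (N - K) * q ^ K := by
          rw [← pow_add]
          congr 1
          omega
        rw [this]
        ring

end

end Pool.Agent.X331.KM
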