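import Mathlib
import Pool.Agent.X331.KM.Step
import Pool.Agent.X331.KM.Num
set_option autoImplicit false
set_option linter.unusedSectionVars false

/-! # The base case: lines -/

namespace Pool.Agent.X331.KM

open Finset Module

section

variable {F : Type} [Field F] [Fintype F] {V : Type} [AddCommGroup V] [Module F V] [Fintype V]

lemma line_sum {m : ℕ} (e : V ≃ₗ[F] (Fin (m + 1) → F)) (i : Fin (m + 1)) (ω : Fin m → F)
    (f : V → ℝ) (a : V) :
    cs f (F ∙ (e.symm (i.insertNth (1 : F) ω))) a =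
      ∑ s : F, f (e.symm (i.insertNth s (fun l => (e a (i.succAbove l) - e a i * ω l) + s * ω l))) := by
  classical
  unfold cs
  symm
  have key : ∀ s : F, e.symm (i.insertNth s (fun l => (e a (i.succAbove l) - e a i * ω l) +
      s * ω l)) = a + (s - e a i) • e.symm (i.insertNth (1 : F) ω) := by
    intro s
    rw [← map_smul, LinearEquiv.symm_apply_eq, map_add, LinearEquiv.apply_symm_apply]
    rw [Fin.insertNth_eq_iff]
    constructor
    · simp
    · funext l
      simp [Fin.removeNth]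
      ring
  refine Finset.sum_bij (fun s _ => e.symm (i.insertNth s (fun l => (e a (i.succAbove l) -
    e a i * ω l) + s * ω l))) ?_ ?_ ?_ ?_
  · intro s _
    rw [Finset.mem_filter, key]
    refine ⟨Finset.mem_univ _, ?_⟩
    rw [add_sub_cancel_left]
    exact Submodule.smul_mem _ _ (Submodule.mem_span_singleton_self _)
  · intro s _ t _ h
    have h1 := congrArg (fun x => e x i) h
    simpa using h1
  · intro x hx
    rw [Finset.mem_filter] at hx
    obtain ⟨t, ht⟩ := Submodule.mem_span_singleton.mp hx.2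
    refine ⟨e a i + t, Finset.mem_univ _, ?_⟩
    rw [key, add_sub_cancel_left, ht]
    abel
  · intro s _
    rfl

lemma exists_chart {m : ℕ} (e : V ≃ₗ[F] (Fin (m + 1) → F)) (L : Submodule F V)
    (hL : finrank F L = 1) : ∃ x : Fin (m + 1) × (Fin m → F),
      (F ∙ (e.symm (x.1.insertNth (1 : F) x.2))) = L := by
  have hbot : L ≠ ⊥ := by
    rintro rfl
    rw [finrank_bot] at hL
    exact absurd hL (by norm_num)
  obtain ⟨z, hzL, hz0⟩ := Submodule.exists_mem_ne_zero_of_ne_bot hbot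
  have hez : e z ≠ 0 := fun h => hz0 (by simpa using h)
  obtain ⟨i, hi⟩ := Function.ne_iff.mp hez
  have hi' : e z i ≠ 0 := hi
  refine ⟨(i, fun l => (e z i)⁻¹ * e z (i.succAbove l)), ?_⟩
  have h1 : e.symm (i.insertNth (1 : F) (fun l => (e z i)⁻¹ * e z (i.succAbove l))) =
      (e z i)⁻¹ • z := by
    rw [LinearEquiv.symm_apply_eq, map_smul, Fin.insertNth_eq_iff]
    constructor
    · simp [hi']
    · funext l
      simp [Fin.removeNth]
  simp only
  rw [h1]
  have h2 : (e z i)⁻¹ • z ∈ L := L.smul_mem _ hzL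
  have h3 : (e z i)⁻¹ • z ≠ 0 := smul_ne_zero (inv_ne_zero hi') hz0
  apply Submodule.eq_of_le_of_finrank_eq
  · rw [Submodule.span_singleton_le_iff_mem]
    exact h2
  · rw [hL, finrank_span_singleton h3]

end

/-- the base case -/
theorem MI_base (m : ℕ) (hm : 1 ≤ m) :
    MI (m + 1) 1 (((m : ℝ) + 1) * (8 ^ (m + 1) * (m : ℝ) ^ m)) := by
  classical
  intro F _ _ V _ _ _ hV f hf a
  have : Nonempty (Fin m) := ⟨⟨0, hm⟩⟩
  have e : V ≃ₗ[F] (Fin (m + 1) → F) := LinearEquiv.ofFinrankEq _ _ (by rw [hV]; simp)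
  set q : ℝ := (Fintype.card F : ℝ) with hq
  have hq0 : 0 < q := by
    rw [hq]
    exact_mod_cast Fintype.card_pos
  set S : ℝ := ∑ x, f x ^ (m + 1) with hS
  have hS0 : 0 ≤ S := Finset.sum_nonneg fun x _ => pow_nonneg (hf x) _
  set D : Fin (m + 1) × (Fin m → F) → Submodule F V :=
    fun x => F ∙ (e.symm (x.1.insertNth (1 : F) x.2)) with hD
  set Φ : Submodule F V → ℝ := fun L => cs f L (a L) ^ (m + 1) with hΦ
  have hΦ0 : ∀ L, 0 ≤ Φ L := fun L => pow_nonneg (cs_nonneg hf _ _) _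
  have hcov : ∑ L ∈ gr F V 1, Φ L ≤ ∑ x, Φ (D x) := by
    have hex : ∀ L : Submodule F V, ∃ x, L ∈ gr F V 1 → D x = L := by
      intro L
      by_cases hL : L ∈ gr F V 1
      · obtain ⟨x, hx⟩ := exists_chart e L (mem_gr.mp hL)
        exact ⟨x, fun _ => hx⟩
      · exact ⟨(0, fun _ => 0), fun h => absurd h hL⟩
    choose c hc using hex
    have h1 : ∑ L ∈ gr F V 1, Φ L = ∑ x ∈ (gr F V 1).image c, Φ (D x) := by
      rw [Finset.sum_image]
      · refine Finset.sum_congr rfl fun L hL => ?_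
        rw [hc L hL]
      · intro L hL L' hL' h
        rw [← hc L hL, ← hc L' hL', h]
    rw [h1]
    exact Finset.sum_le_sum_of_subset_of_nonneg (Finset.subset_univ _) fun x _ _ => hΦ0 _
  have hone : ∀ i : Fin (m + 1), ∑ ω : Fin m → F, Φ (D (i, ω)) ≤
      8 ^ (m + 1) * ((m : ℝ) * q) ^ m * S := by
    intro i
    have h := chart_real (F := F) (σ := Fin m)
      (fun x => f (e.symm (i.insertNth x.1 x.2))) (fun x => hf _)
      (fun ω l => e (a (D (i, ω))) (i.succAbove l) - e (a (D (i, ω))) i * ω l)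
    rw [Fintype.card_fin] at h
    have h1 : ∑ x : F × (Fin m → F), f (e.symm (i.insertNth x.1 x.2)) ^ (m + 1) = S := by
      rw [hS]
      exact Fintype.sum_equiv ((Fin.insertNthEquiv (fun _ => F) i).trans e.symm.toEquiv) _ _
        fun x => rfl
    rw [h1] at h
    refine le_trans (le_of_eq ?_) h
    refine Finset.sum_congr rfl fun ω _ => ?_
    rw [hΦ]
    simp only
    rw [hD]
    simp only
    rw [line_sum e i ω f _]
  have hcard : q ^ m ≤ ((gr F V 1).card : ℝ) := by
    rw [card_gr_one, hV]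
    push_cast
    exact Finset.single_le_sum (f := fun i => q ^ i)
      (fun i _ => (pow_pos hq0 i).le) (Finset.mem_range.mpr (Nat.lt_succ_self m))
  have hexp : (∑ x, f x ^ (((m + 1 : ℕ) : ℝ) / ((1 : ℕ) : ℝ))) ^ 1 = S := by
    rw [pow_one, hS]
    refine Finset.sum_congr rfl fun x _ => ?_
    rw [Nat.cast_one, div_one, Real.rpow_natCast]
  rw [hexp]
  calc ∑ L ∈ gr F V 1, Φ L ≤ ∑ x, Φ (D x) := hcov
    _ = ∑ i : Fin (m + 1), ∑ ω : Fin m → F, Φ (D (i, ω)) := Fintype.sum_prod_type _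
    _ ≤ ∑ i : Fin (m + 1), 8 ^ (m + 1) * ((m : ℝ) * q) ^ m * S :=
        Finset.sum_le_sum fun i _ => hone i
    _ = ((m : ℝ) + 1) * (8 ^ (m + 1) * (m : ℝ) ^ m) * q ^ m * S := by
        rw [Finset.sum_const, Finset.card_univ, Fintype.card_fin, nsmul_eq_mul, mul_pow]
        push_cast
        ring
    _ ≤ ((m : ℝ) + 1) * (8 ^ (m + 1) * (m : ℝ) ^ m) * ((gr F V 1).card : ℝ) * S := by
        refine mul_le_mul_of_nonneg_right (mul_le_mul_of_nonneg_left hcard (by positivity)) hS0

end Pool.Agent.X331.KM
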