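import Mathlib
import Pool.Agent.X331.KM.Step
set_option autoImplicit false
set_option linter.unusedSectionVars false

/-! # The induction step -/

namespace Pool.Agent.X331.KM

open Finset Module

section

variable {F : Type} [Field F] [Fintype F] {V : Type} [AddCommGroup V] [Module F V] [Fintype V]

open scoped Classical in
/-- fibre sums compute coset sums -/
lemma cs_push (d W : Submodule F V) (hd : d ≤ W) [Fintype (V ⧸ d)] (f : V → ℝ) (a : V) :
    cs f W a = cs (fun y => ∑ x ∈ Finset.univ.filter (fun x => d.mkQ x = y), f x)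
      (W.map d.mkQ) (d.mkQ a) := by
  unfold cs
  have key : ∀ x : V, x - a ∈ W ↔ d.mkQ x - d.mkQ a ∈ W.map d.mkQ := by
    intro x
    rw [← map_sub, ← Submodule.mem_comap, Submodule.comap_map_mkQ, sup_eq_right.mpr hd]
  rw [← Finset.sum_fiberwise_of_maps_to (s := Finset.univ.filter (fun x => x - a ∈ W))
    (t := Finset.univ.filter (fun y : V ⧸ d => y - d.mkQ a ∈ W.map d.mkQ)) (g := d.mkQ)
    (fun x hx => by
      rw [Finset.mem_filter] at hx ⊢
      exact ⟨Finset.mem_univ _, (key x).mp hx.2⟩)]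
  refine Finset.sum_congr rfl fun y hy => ?_
  refine Finset.sum_congr ?_ fun _ _ => rfl
  ext x
  simp only [Finset.mem_filter, Finset.mem_univ, true_and] at hy ⊢
  constructor
  · exact fun h => h.2
  · intro h
    refine ⟨?_, h⟩
    rw [key, h]
    exact hy

open scoped Classical in
lemma card_fibre (d : Submodule F V) (hd : finrank F d = 1) (y : V ⧸ d) :
    (Finset.univ.filter (fun x => d.mkQ x = y)).card ≤ Fintype.card F := by
  obtain ⟨a, ha⟩ := d.mkQ_surjective y
  have h := card_coset d a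
  rw [hd, pow_one] at h
  rw [← h]
  refine Finset.card_le_card fun x hx => ?_
  rw [Finset.mem_filter] at hx ⊢
  refine ⟨Finset.mem_univ _, ?_⟩
  have : d.mkQ x = d.mkQ a := by rw [hx.2, ha]
  rwa [Submodule.mkQ_apply, Submodule.mkQ_apply, Submodule.Quotient.eq] at this

open scoped Classical in
lemma sum_fibres (d : Submodule F V) [Fintype (V ⧸ d)] (φ : V → ℝ) :
    ∑ y, ∑ x ∈ Finset.univ.filter (fun x => d.mkQ x = y), φ x = ∑ x, φ x :=
  Finset.sum_fiberwise_of_maps_to (fun _ _ => Finset.mem_univ _) φ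

open scoped Classical in
/-- pair sums -/
lemma sum_sq_fibres (d : Submodule F V) [Fintype (V ⧸ d)] (φ : V → ℝ) :
    ∑ y, ((∑ x ∈ Finset.univ.filter (fun x => d.mkQ x = y), φ x) ^ 2 -
      ∑ x ∈ Finset.univ.filter (fun x => d.mkQ x = y), φ x ^ 2) =
    ∑ x, ∑ x', if x - x' ∈ d ∧ x - x' ≠ 0 then φ x * φ x' else 0 := by
  have h1 : ∀ y : V ⧸ d, (∑ x ∈ Finset.univ.filter (fun x => d.mkQ x = y), φ x) ^ 2 -
      ∑ x ∈ Finset.univ.filter (fun x => d.mkQ x = y), φ x ^ 2 =
      ∑ x ∈ Finset.univ.filter (fun x => d.mkQ x = y),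
        (φ x * (∑ x' ∈ Finset.univ.filter (fun x' => d.mkQ x' = d.mkQ x), φ x') - φ x ^ 2) := by
    intro y
    rw [Finset.sum_sub_distrib]
    congr 1
    rw [sq, Finset.sum_mul]
    refine Finset.sum_congr rfl fun x hx => ?_
    rw [Finset.mem_filter] at hx
    rw [hx.2]
  simp_rw [h1]
  rw [sum_fibres d (fun x => φ x * (∑ x' ∈ Finset.univ.filter (fun x' => d.mkQ x' = d.mkQ x), φ x')
    - φ x ^ 2)]
  refine Finset.sum_congr rfl fun x _ => ?_
  have h2 : ∀ x', (x - x' ∈ d) ↔ d.mkQ x' = d.mkQ x := by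
    intro x'
    rw [Submodule.mkQ_apply, Submodule.mkQ_apply, eq_comm, Submodule.Quotient.eq]
  have h3 : ∑ x' ∈ Finset.univ.filter (fun x' => d.mkQ x' = d.mkQ x), φ x' =
      φ x + ∑ x' ∈ (Finset.univ.filter (fun x' => d.mkQ x' = d.mkQ x)).erase x, φ x' :=
    (Finset.add_sum_erase (Finset.univ.filter (fun x' => d.mkQ x' = d.mkQ x)) φ
      (Finset.mem_filter.mpr ⟨Finset.mem_univ x, rfl⟩)).symm
  rw [h3, mul_add, ← sq, add_sub_cancel_left, Finset.mul_sum, ← Finset.sum_filter]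
  refine Finset.sum_congr ?_ fun _ _ => rfl
  ext x'
  simp only [Finset.mem_erase, Finset.mem_filter, Finset.mem_univ, true_and]
  rw [h2, sub_ne_zero]
  constructor
  · rintro ⟨h, h'⟩
    exact ⟨h', h.symm⟩
  · rintro ⟨h, h'⟩
    exact ⟨h'.symm, h⟩

open scoped Classical in
/-- sum over lines of the pair sums -/
lemma sum_pairs_le (φ : V → ℝ) (hφ : ∀ x, 0 ≤ φ x) :
    ∑ d ∈ gr F V 1, ∑ x, ∑ x', (if x - x' ∈ d ∧ x - x' ≠ 0 then φ x * φ x' else 0) ≤
      (∑ x, φ x) ^ 2 := by
  rw [Finset.sum_comm, sq, Finset.sum_mul]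
  refine Finset.sum_le_sum fun x _ => ?_
  rw [Finset.sum_comm, Finset.mul_sum]
  refine Finset.sum_le_sum fun x' _ => ?_
  have h0 : 0 ≤ φ x * φ x' := mul_nonneg (hφ x) (hφ x')
  by_cases hz : x - x' = 0
  · refine le_trans (le_of_eq (Finset.sum_eq_zero fun d _ => ?_)) h0
    rw [if_neg (fun h => h.2 hz)]
  · have h1 : ∑ d ∈ gr F V 1, (if x - x' ∈ d ∧ x - x' ≠ 0 then φ x * φ x' else 0) =
        (((gr F V 1).filter fun d => x - x' ∈ d).card : ℝ) * (φ x * φ x') := by
      rw [← Finset.sum_filter, Finset.sum_const, nsmul_eq_mul]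
      congr 3
      refine Finset.filter_congr fun d _ => ?_
      simp [hz]
    rw [h1]
    have h2 : (((gr F V 1).filter fun d => x - x' ∈ d).card : ℝ) ≤ 1 := by
      exact_mod_cast card_lines_through hz
    calc _ ≤ 1 * (φ x * φ x') := mul_le_mul_of_nonneg_right h2 h0
      _ = _ := one_mul _

open scoped Classical in
/-- double counting of flags -/
lemma double_count (K : ℕ) (X : Submodule F V → Submodule F V → ℝ) :
    ∑ W ∈ gr F V (K + 1), ∑ d ∈ (gr F V 1).filter (fun d => d ≤ W), X d W =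
      ∑ d ∈ gr F V 1, ∑ W ∈ (gr F V (K + 1)).filter (fun W => d ≤ W), X d W := by
  simp_rw [Finset.sum_filter]
  rw [Finset.sum_comm]

end

end Pool.Agent.X331.KM
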