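import Mathlib
import Pool.Agent.X331.KM.Ind
set_option autoImplicit false
set_option linter.unusedSectionVars false

/-! # The induction step, assembled -/

namespace Pool.Agent.X331.KM

open Finset Module

section

variable {F : Type} [Field F] [Fintype F] {V : Type} [AddCommGroup V] [Module F V] [Fintype V]

open scoped Classical in
lemma one_line {N K : ℕ} (hK : 1 ≤ K) (hKN : K ≤ N) {C : ℝ} (hC : 0 ≤ C) (h : MI N K C)
    (hV : finrank F V = N + 1) (f : V → ℝ) (hf : ∀ x, 0 ≤ f x) (a : Submodule F V → V)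
    (d : Submodule F V) (hd : finrank F d = 1) (φ : V → ℝ)
    (hφ : ∀ x, φ x = f x ^ (((N : ℝ) + 1) / (K + 1))) :
    ∑ W ∈ (gr F V (K + 1)).filter (fun W => d ≤ W), cs f W (a W) ^ (N + 1) ≤
      2 ^ N * (C * ((gr F (V ⧸ d) K).card : ℝ)) * ((∑ x, φ x) ^ (K + 1) +
        (Fintype.card F : ℝ) ^ N * ((∑ x, φ x) ^ (K - 1) *
          ∑ x, ∑ x', if x - x' ∈ d ∧ x - x' ≠ 0 then φ x * φ x' else 0)) := by
  letI : Fintype (V ⧸ d) := Fintype.ofFinite _
  have hφ0 : ∀ x, 0 ≤ φ x := fun x => by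
    rw [hφ]
    exact Real.rpow_nonneg (hf x) _
  have hp1 : 1 ≤ ((N : ℝ) + 1) / (K + 1) := by
    rw [one_le_div (by positivity)]
    have : (K : ℝ) ≤ N := by exact_mod_cast hKN
    linarith
  have hp0 : 0 ≤ ((N : ℝ) + 1) / (K + 1) := by linarith
  set q : ℝ := (Fintype.card F : ℝ) with hq
  have hq0 : 0 < q := by
    rw [hq]
    exact_mod_cast Fintype.card_pos
  set S : ℝ := ∑ x, φ x with hS
  have hS0 : 0 ≤ S := Finset.sum_nonneg fun x _ => hφ0 x
  -- the fibres and their maximum points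
  set T : V ⧸ d → Finset V := fun y => Finset.univ.filter (fun x => d.mkQ x = y) with hT
  have hmem : ∀ y x, x ∈ T y ↔ d.mkQ x = y := by
    intro y x
    exact ⟨fun h => (Finset.mem_filter.mp h).2,
      fun h => Finset.mem_filter.mpr ⟨Finset.mem_univ _, h⟩⟩
  have hex : ∀ y : V ⧸ d, ∃ x0 ∈ T y, ∀ x ∈ T y, f x ≤ f x0 := by
    intro y
    apply Finset.exists_max_image
    obtain ⟨x, hx⟩ := d.mkQ_surjective y
    exact ⟨x, (hmem y x).mpr hx⟩
  choose x0 hx0 hmax using hex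
  set g : V ⧸ d → ℝ := fun y => f (x0 y) with hg
  set e : V ⧸ d → ℝ := fun y => ∑ x ∈ (T y).erase (x0 y), f x with he
  set b : V ⧸ d → ℝ := fun y => ∑ x ∈ (T y).erase (x0 y), φ x with hb
  have hg0 : ∀ y, 0 ≤ g y := fun y => hf _
  have he0 : ∀ y, 0 ≤ e y := fun y => Finset.sum_nonneg fun x _ => hf x
  have hb0 : ∀ y, 0 ≤ b y := fun y => Finset.sum_nonneg fun x _ => hφ0 x
  have hdim : finrank F (V ⧸ d) = N := by
    have := Submodule.finrank_quotient_add_finrank d
    omega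
  have hpush : ∀ W : Submodule F V, d ≤ W → cs f W (a W) =
      cs g (W.map d.mkQ) (d.mkQ (a W)) + cs e (W.map d.mkQ) (d.mkQ (a W)) := by
    intro W hW
    rw [cs_push d W hW f (a W)]
    unfold cs
    rw [← Finset.sum_add_distrib]
    refine Finset.sum_congr rfl fun y _ => ?_
    exact (Finset.add_sum_erase (T y) f (hx0 y)).symm
  -- the translates in the quotient
  set a' : Submodule F (V ⧸ d) → V ⧸ d := fun W' => d.mkQ (a (W'.comap d.mkQ)) with ha'
  have ha'W : ∀ W : Submodule F V, d ≤ W → a' (W.map d.mkQ) = d.mkQ (a W) := by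
    intro W hW
    rw [ha']
    simp only
    rw [Submodule.comap_map_mkQ, sup_eq_right.mpr hW]
  have hle : ∀ W ∈ (gr F V (K + 1)).filter (fun W => d ≤ W), cs f W (a W) ^ (N + 1) ≤
      (fun W' : Submodule F (V ⧸ d) => 2 ^ N * (cs g W' (a' W') ^ (N + 1) +
        cs e W' (a' W') ^ (N + 1))) (W.map d.mkQ) := by
    intro W hW
    rw [Finset.mem_filter] at hW
    simp only
    rw [ha'W W hW.2, hpush W hW.2]
    exact add_pow_le (cs_nonneg hg0 _ _) (cs_nonneg he0 _ _) (N + 1)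
  refine (Finset.sum_le_sum hle).trans ?_
  rw [sum_above hd (fun W' : Submodule F (V ⧸ d) => 2 ^ N * (cs g W' (a' W') ^ (N + 1) +
        cs e W' (a' W') ^ (N + 1)))]
  rw [← Finset.mul_sum, Finset.sum_add_distrib]
  -- bounds for g
  have hSg : ∑ y, g y ^ (((N : ℝ) + 1) / (K + 1)) ≤ S := by
    rw [hS, ← sum_fibres d φ]
    refine Finset.sum_le_sum fun y _ => ?_
    rw [← hφ (x0 y)]
    exact Finset.single_le_sum (f := φ) (fun x _ => hφ0 x) (hx0 y)
  have hSb : ∑ y, b y ≤ S := by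
    rw [hS, ← sum_fibres d φ]
    refine Finset.sum_le_sum fun y _ => ?_
    exact Finset.sum_le_sum_of_subset_of_nonneg (Finset.erase_subset _ _) fun x _ _ => hφ0 x
  have hheb : ∀ y, e y ^ (((N : ℝ) + 1) / (K + 1)) ≤ q ^ (((N : ℝ) + 1) / (K + 1) - 1) * b y := by
    intro y
    have h1 := Real.rpow_sum_le_const_mul_sum_rpow_of_nonneg ((T y).erase (x0 y)) hp1
      (f := f) (fun x _ => hf x)
    refine h1.trans ?_
    have h2 : ∑ x ∈ (T y).erase (x0 y), f x ^ (((N : ℝ) + 1) / (K + 1)) = b y :=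
      Finset.sum_congr rfl fun x _ => (hφ x).symm
    rw [h2]
    refine mul_le_mul_of_nonneg_right ?_ (hb0 y)
    refine Real.rpow_le_rpow (Nat.cast_nonneg _) ?_ (by linarith)
    rw [hq]
    exact_mod_cast (Finset.card_le_card (Finset.erase_subset _ _)).trans (card_fibre d hd y)
  have hbeta : ∑ y, b y ^ 2 ≤
      ∑ x, ∑ x', (if x - x' ∈ d ∧ x - x' ≠ 0 then φ x * φ x' else 0) := by
    rw [← sum_sq_fibres d φ]
    refine Finset.sum_le_sum fun y _ => ?_
    refine fibre_sq (T y) φ hφ0 (x0 y) (hx0 y) fun x hx => ?_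
    rw [hφ, hφ]
    exact Real.rpow_le_rpow (hf x) (hmax y x hx) hp0
  have hs1 := step1 (hK.trans hKN) hK h hdim g hg0 a'
  have hs2 := step2 hK hKN hC h hdim e b he0 hb0 hheb a'
  have hN' : (0 : ℝ) ≤ C * ((gr F (V ⧸ d) K).card : ℝ) := by positivity
  have h1 : ∑ W' ∈ gr F (V ⧸ d) K, cs g W' (a' W') ^ (N + 1) ≤
      C * ((gr F (V ⧸ d) K).card : ℝ) * S ^ (K + 1) := by
    refine hs1.trans (mul_le_mul_of_nonneg_left ?_ hN')
    exact pow_le_pow_left₀ (Finset.sum_nonneg fun y _ => Real.rpow_nonneg (hg0 y) _) hSg _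
  have h2 : ∑ W' ∈ gr F (V ⧸ d) K, cs e W' (a' W') ^ (N + 1) ≤
      C * ((gr F (V ⧸ d) K).card : ℝ) * (q ^ N * (S ^ (K - 1) *
        ∑ x, ∑ x', (if x - x' ∈ d ∧ x - x' ≠ 0 then φ x * φ x' else 0))) := by
    refine hs2.trans (mul_le_mul_of_nonneg_left ?_ hN')
    refine mul_le_mul_of_nonneg_left ?_ (by positivity)
    refine mul_le_mul ?_ hbeta (Finset.sum_nonneg fun y _ => sq_nonneg _) (by positivity)
    exact pow_le_pow_left₀ (Finset.sum_nonneg fun y _ => hb0 y) hSb _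
  have h3 : (0 : ℝ) ≤ 2 ^ N := by positivity
  calc 2 ^ (N + 1 - 1) * (∑ W' ∈ gr F (V ⧸ d) K, cs g W' (a' W') ^ (N + 1) +
        ∑ W' ∈ gr F (V ⧸ d) K, cs e W' (a' W') ^ (N + 1)) ≤
      2 ^ N * (C * ((gr F (V ⧸ d) K).card : ℝ) * S ^ (K + 1) +
        C * ((gr F (V ⧸ d) K).card : ℝ) * (q ^ N * (S ^ (K - 1) *
        ∑ x, ∑ x', (if x - x' ∈ d ∧ x - x' ≠ 0 then φ x * φ x' else 0)))) := by
        rw [Nat.add_sub_cancel]
        exact mul_le_mul_of_nonneg_left (add_le_add h1 h2) h3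
    _ = _ := by ring

end

/-- the induction step -/
theorem MI_step {N K : ℕ} (hK : 1 ≤ K) (hKN : K ≤ N) {C : ℝ} (hC : 0 ≤ C) (h : MI N K C) :
    MI (N + 1) (K + 1) (2 ^ (N + 1) * C) := by
  classical
  intro F _ _ V _ _ _ hV f hf a
  set φ : V → ℝ := fun x => f x ^ (((N : ℝ) + 1) / (K + 1)) with hφ
  have hφ0 : ∀ x, 0 ≤ φ x := fun x => Real.rpow_nonneg (hf x) _
  set q : ℝ := (Fintype.card F : ℝ) with hq
  have hq0 : 0 < q := by
    rw [hq]
    exact_mod_cast Fintype.card_pos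
  set S : ℝ := ∑ x, φ x with hS
  have hS0 : 0 ≤ S := Finset.sum_nonneg fun x _ => hφ0 x
  have hgoal : (∑ x, f x ^ (((N + 1 : ℕ) : ℝ) / ((K + 1 : ℕ) : ℝ))) = S := by
    rw [hS]
    refine Finset.sum_congr rfl fun x _ => ?_
    rw [hφ]
    push_cast
    rfl
  rw [hgoal]
  set L : Submodule F V → ℝ := fun d => ∑ x, ∑ x', if x - x' ∈ d ∧ x - x' ≠ 0 then φ x * φ x' else 0
    with hL
  -- counts
  set NK : ℝ := ∑ i ∈ Finset.range (K + 1), q ^ i with hNK
  set NN : ℝ := ∑ i ∈ Finset.range (N + 1), q ^ i with hNN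
  set N0 : ℝ := ((gr F (Fin N → F) K).card : ℝ) with hN0
  have hNK0 : 0 < NK := by
    rw [hNK]
    refine Finset.sum_pos (fun i _ => pow_pos hq0 i) ⟨0, by simp⟩
  have hlines : ∀ W ∈ gr F V (K + 1), (((gr F V 1).filter fun d => d ≤ W).card : ℝ) = NK := by
    intro W hW
    rw [card_lines_le (mem_gr.mp hW)]
    push_cast
    rfl
  have hcard1 : ((gr F V 1).card : ℝ) = NN := by
    rw [card_gr_one, hV]
    push_cast
    rfl
  have hquot : ∀ d ∈ gr F V 1, ((gr F (V ⧸ d) K).card : ℝ) = N0 := by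
    intro d hd
    rw [mem_gr] at hd
    rw [hN0]
    congr 1
    apply card_gr_congr
    have := Submodule.finrank_quotient_add_finrank d
    rw [Module.finrank_fin_fun]
    omega
  have hqN : q ^ N ≤ NN := Finset.single_le_sum (f := fun i => q ^ i)
    (fun i _ => (pow_pos hq0 i).le) (Finset.mem_range.mpr (Nat.lt_succ_self N))
  have hflags : ((gr F V (K + 1)).card : ℝ) * NK = NN * N0 := by
    have h1 := double_count (F := F) (V := V) K (fun _ _ => 1)
    have h2 : ∑ W ∈ gr F V (K + 1), ∑ d ∈ (gr F V 1).filter (fun d => d ≤ W), (1 : ℝ) =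
        ((gr F V (K + 1)).card : ℝ) * NK := by
      rw [← nsmul_eq_mul, ← Finset.sum_const]
      refine Finset.sum_congr rfl fun W hW => ?_
      rw [Finset.sum_const, nsmul_eq_mul, mul_one]
      exact hlines W hW
    have h3 : ∑ d ∈ gr F V 1, ∑ W ∈ (gr F V (K + 1)).filter (fun W => d ≤ W), (1 : ℝ) =
        NN * N0 := by
      rw [← hcard1, ← nsmul_eq_mul, ← Finset.sum_const]
      refine Finset.sum_congr rfl fun d hd => ?_
      rw [← hquot d hd]
      have h4 := sum_above (mem_gr.mp hd) (k := K) (fun _ : Submodule F (V ⧸ d) => (1 : ℝ))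
      rw [h4]
      simp
    rw [← h2, ← h3]
    exact h1
  -- the main estimate
  have hmain : NK * ∑ W ∈ gr F V (K + 1), cs f W (a W) ^ (N + 1) ≤
      NK * (2 ^ (N + 1) * C * ((gr F V (K + 1)).card : ℝ) * S ^ (K + 1)) := by
    have e1 : NK * ∑ W ∈ gr F V (K + 1), cs f W (a W) ^ (N + 1) =
        ∑ d ∈ gr F V 1, ∑ W ∈ (gr F V (K + 1)).filter (fun W => d ≤ W),
          cs f W (a W) ^ (N + 1) := by
      rw [← double_count K (fun _ W => cs f W (a W) ^ (N + 1)), Finset.mul_sum]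
      refine Finset.sum_congr rfl fun W hW => ?_
      rw [Finset.sum_const, nsmul_eq_mul, hlines W hW]
    rw [e1]
    calc ∑ d ∈ gr F V 1, ∑ W ∈ (gr F V (K + 1)).filter (fun W => d ≤ W),
          cs f W (a W) ^ (N + 1) ≤ ∑ d ∈ gr F V 1, 2 ^ N * (C * N0) * (S ^ (K + 1) +
            q ^ N * (S ^ (K - 1) * L d)) := by
          refine Finset.sum_le_sum fun d hd => ?_
          rw [← hquot d hd]
          exact one_line hK hKN hC h hV f hf a d (mem_gr.mp hd) φ (fun x => rfl)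
      _ = 2 ^ N * (C * N0) * (NN * S ^ (K + 1) + q ^ N * (S ^ (K - 1) *
            ∑ d ∈ gr F V 1, L d)) := by
          rw [← Finset.mul_sum, Finset.sum_add_distrib, Finset.sum_const, nsmul_eq_mul, hcard1,
            ← Finset.mul_sum, ← Finset.mul_sum]
      _ ≤ 2 ^ N * (C * N0) * (NN * S ^ (K + 1) + NN * (S ^ (K - 1) * S ^ 2)) := by
          refine mul_le_mul_of_nonneg_left (add_le_add le_rfl ?_) (by positivity)
          refine mul_le_mul hqN (mul_le_mul_of_nonneg_left (sum_pairs_le φ hφ0) (by positivity))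
            ?_ (le_trans (by positivity) hqN)
          refine mul_nonneg (by positivity) (Finset.sum_nonneg fun d _ => Finset.sum_nonneg
            fun x _ => Finset.sum_nonneg fun x' _ => ?_)
          split_ifs
          · exact mul_nonneg (hφ0 x) (hφ0 x')
          · exact le_rfl
      _ = NK * (2 ^ (N + 1) * C * ((gr F V (K + 1)).card : ℝ) * S ^ (K + 1)) := by
          have h5 : S ^ (K - 1) * S ^ 2 = S ^ (K + 1) := by
            rw [← pow_add]
            congr 1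
            omega
          rw [h5]
          have h6 : NK * (2 ^ (N + 1) * C * ((gr F V (K + 1)).card : ℝ) * S ^ (K + 1)) =
              2 ^ (N + 1) * C * S ^ (K + 1) * (((gr F V (K + 1)).card : ℝ) * NK) := by ring
          rw [h6, hflags]
          ring
  exact le_of_mul_le_mul_left hmain hNK0

end Pool.Agent.X331.KM
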