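import Mathlib
import Pool.Agent.X331.KM.Main
import Pool.Agent.X331.KM.Bas
set_option autoImplicit false
set_option linter.unusedSectionVars false

/-! # The maximal inequality for all dimensions -/

namespace Pool.Agent.X331.KM

open Finset Module

theorem MI_all : ∀ k n : ℕ, 0 < k → k < n → ∃ C : ℝ, 0 < C ∧ MI n k C := by
  intro k
  induction k with
  | zero => intro n h _; exact absurd h (lt_irrefl _)
  | succ k ih =>
    intro n _ hn
    rcases Nat.eq_zero_or_pos k with rfl | hk
    · obtain ⟨m, rfl⟩ : ∃ m, n = m + 1 := ⟨n - 1, by omega⟩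
      have hm : 1 ≤ m := by omega
      have hm0 : (0 : ℝ) < m := by exact_mod_cast hm
      exact ⟨_, by positivity, MI_base m hm⟩
    · obtain ⟨N, rfl⟩ : ∃ N, n = N + 1 := ⟨n - 1, by omega⟩
      obtain ⟨C, hC, h⟩ := ih N hk (by omega)
      exact ⟨2 ^ (N + 1) * C, by positivity, MI_step hk (by omega) hC.le h⟩

lemma cs_eq_sum {F V : Type} [Field F] [AddCommGroup V] [Module F V] [Fintype V] (f : V → ℝ)
    (W : Submodule F V) (a : V) : cs f W a = ∑ᶠ w : W, f (a + (w : V)) := by
  classical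
  have : Fintype W := Fintype.ofFinite _
  rw [finsum_eq_sum_of_fintype]
  unfold cs
  symm
  refine Finset.sum_bij (fun w _ => a + (w : V)) ?_ ?_ ?_ ?_
  · intro w _
    simp
  · intro w _ w' _ h
    exact Subtype.ext (add_left_cancel h)
  · intro x hx
    rw [Finset.mem_filter] at hx
    exact ⟨⟨x - a, hx.2⟩, Finset.mem_univ _, by simp⟩
  · intro w _
    rfl

theorem final (n k : ℕ) (hk : 0 < k) (hkn : k < n) : ∃ C : ℝ, 0 < C ∧
      ∀ (F : Type) [Field F] [Fintype F] (f : (Fin n → F) → ℝ),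
        (∑ᶠ W : {W : Submodule F (Fin n → F) // Module.finrank F W = k},
            (⨆ a : Fin n → F, ∑ᶠ w : W.1, |f (a + (w : Fin n → F))|) ^ n)
          ≤ C * (Nat.card {W : Submodule F (Fin n → F) // Module.finrank F W = k} : ℝ)
              * (∑ x : Fin n → F, |f x| ^ ((n : ℝ) / k)) ^ k := by
  obtain ⟨C, hC, h⟩ := MI_all k n hk hkn
  refine ⟨C, hC, ?_⟩
  intro F _ _ f
  classical
  have hex : ∀ W : Submodule F (Fin n → F), ∃ a : Fin n → F,
      cs (fun x => |f x|) W a = ⨆ a : Fin n → F, ∑ᶠ w : W, |f (a + (w : Fin n → F))| := by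
    intro W
    obtain ⟨a, ha⟩ := exists_eq_ciSup_of_finite
      (f := fun a : Fin n → F => ∑ᶠ w : W, |f (a + (w : Fin n → F))|)
    refine ⟨a, ?_⟩
    rw [cs_eq_sum, ← ha]
  choose a ha using hex
  have h1 := h F (Fin n → F) (by simp) (fun x => |f x|) (fun x => abs_nonneg _) a
  have : Fintype {W : Submodule F (Fin n → F) // Module.finrank F W = k} := Fintype.ofFinite _
  have e1 : (∑ᶠ W : {W : Submodule F (Fin n → F) // Module.finrank F W = k},
      (⨆ a : Fin n → F, ∑ᶠ w : W.1, |f (a + (w : Fin n → F))|) ^ n) =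
      ∑ W ∈ gr F (Fin n → F) k, cs (fun x => |f x|) W (a W) ^ n := by
    rw [finsum_eq_sum_of_fintype, Finset.sum_subtype (gr F (Fin n → F) k) (fun W => mem_gr)]
    refine Finset.sum_congr rfl fun W _ => ?_
    rw [ha]
  have e2 : (Nat.card {W : Submodule F (Fin n → F) // Module.finrank F W = k}) =
      (gr F (Fin n → F) k).card := by
    rw [Nat.card_eq_fintype_card]
    exact Fintype.card_of_subtype (gr F (Fin n → F) k) (fun W => mem_gr)
  rw [e1, e2]
  exact h1

end Pool.Agent.X331.KM
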